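import Pool.Agent.Lib.MP_fb3619_al.FP.Iface

/-!
# MP_fb3619_al, board FPF: small facts
-/

set_option autoImplicit false

universe u

namespace Pool.Agent.FourGp.FF.Fp

open Pool.Agent.FourGp.H47 (Odd' inv_of_sq conj_inv_pow mul_inv_self odd_conj comm_of_inv
  mul_inv_self' comm_pow comm_inv conj_comm comm_conj)
open Pool.Agent.FourGp.H99 (LF)
open Pool.Agent.FourGp.FF.Abo
open Pool.Agent.FourGp.FF.Pq (TA mem_TA)
open Pool.Agent.FourGp.FF.Bs (MinC Min0 HerS CkS CmsS)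
open Pool.Agent.FourGp.FF.Fi (cjg Tm AT Fam)

/-! ### Permuting the frame -/

theorem min0_rot {G : Type u} [Group G] {K : Subgroup G} {a b c : G} (m : Min0 K a b c) :
    Min0 K b c a where
  fr := m.fr.rot
  fin := by rw [m.fr.fx_rot]; exact m.fin
  nlf := m.nlf
  fg := m.fg
  nolf := m.nolf.rot m.fr
  min := by
    intro Q _ K' a' b' c' h hf hc
    rw [m.fr.fx_rot] at hc
    exact m.min Q K' a' b' c' h hf hc

theorem min0_swap {G : Type u} [Group G] {K : Subgroup G} {a b c : G} (m : Min0 K a b c) :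
    Min0 K b a c where
  fr := m.fr.swap
  fin := by rw [Fr.fx_swap]; exact m.fin
  nlf := m.nlf
  fg := m.fg
  nolf := m.nolf.swap
  min := by
    intro Q _ K' a' b' c' h hf hc
    rw [Fr.fx_swap (K := K) (a := b)] at hc
    exact m.min Q K' a' b' c' h hf hc

theorem minC_rot {G : Type u} [Group G] {K : Subgroup G} {a b c : G} (m : MinC K a b c) :
    MinC K b c a where
  toMin0 := min0_rot m.toMin0
  sim := fun N h1 h2 h3 => m.sim N h1 ((h2.rot m.fr.rot).rot m.fr.rot.rot) h3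
  ind := fun L h1 h2 h3 => m.ind L h1 ((h2.rot m.fr.rot).rot m.fr.rot.rot) h3

theorem minC_swap {G : Type u} [Group G] {K : Subgroup G} {a b c : G} (m : MinC K a b c) :
    MinC K b a c where
  toMin0 := min0_swap m.toMin0
  sim := fun N h1 h2 h3 => m.sim N h1 h2.swap h3
  ind := fun L h1 h2 h3 => m.ind L h1 h2.swap h3

/-- `(a, b, c) → (a, c, b)` -/
theorem minC_swap' {G : Type u} [Group G] {K : Subgroup G} {a b c : G} (m : MinC K a b c) :
    MinC K a c b := minC_rot (minC_swap m)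

/-- `(a, b, c) → (c, a, b)` -/
theorem minC_rot2 {G : Type u} [Group G] {K : Subgroup G} {a b c : G} (m : MinC K a b c) :
    MinC K c a b := minC_rot (minC_rot m)

/-- `(a, b, c) → (c, b, a)` -/
theorem minC_rev {G : Type u} [Group G] {K : Subgroup G} {a b c : G} (m : MinC K a b c) :
    MinC K c b a := minC_swap (minC_rot m)

variable {G : Type u} [Group G] {K : Subgroup G} {a b c : G}

theorem at_rot2 (t : AT K a b c) : AT K c a b := t.rot.rot

theorem at_rev (t : AT K a b c) : AT K c b a := t.rot.swap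

theorem fx_ca (h : Fr K a b c) : Fx K c a = Fx K a b := h.rot.rot.fx_rot.symm

theorem fx_ac (h : Fr K a b c) : Fx K a c = Fx K a b := Fr.fx_swap.trans (fx_ca h)

theorem fx_cb (h : Fr K a b c) : Fx K c b = Fx K a b := Fr.fx_swap.trans h.fx_rot

/-! ### `F` -/

theorem fx_cza {f : G} (hf : f ∈ Fx K a b) : f ∈ Cz K a :=
  mem_Cz.2 ⟨(mem_Fx.1 hf).1, (mem_Fx.1 hf).2.1⟩

theorem fx_czb {f : G} (hf : f ∈ Fx K a b) : f ∈ Cz K b :=
  mem_Cz.2 ⟨(mem_Fx.1 hf).1, (mem_Fx.1 hf).2.2⟩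

theorem fx_czc (h : Fr K a b c) {f : G} (hf : f ∈ Fx K a b) : f ∈ Cz K c :=
  mem_Cz.2 ⟨(mem_Fx.1 hf).1, h.comm3 (mem_Fx.1 hf).2.1 (mem_Fx.1 hf).2.2⟩

theorem fx_cz (h : Fr K a b c) {f v : G} (hv : v = a ∨ v = b ∨ v = c) (hf : f ∈ Fx K a b) :
    f ∈ Cz K v := by
  rcases hv with rfl | rfl | rfl
  · exact fx_cza hf
  · exact fx_czb hf
  · exact fx_czc h hf

/-- `F_v` is normal in `F`. -/
theorem fi_fx {f g v : G} (hg : g ∈ Cz K v) (h1 : fi (Cz K v) f) :
    fi (Cz K v) (g⁻¹ * f * g) :=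
  Fct.fi_conj h1 hg

/-! ### `T_a` -/

theorem mi_c (h : Fr K a b c) {u : G} : Mi K a b u ↔ Mi K a c u :=
  ⟨fun hu => ⟨hu.1, h.swap.inv_c (mem_Cz.1 hu.1).2 hu.2⟩,
    fun hu => ⟨hu.1, h.swap'.swap.inv_c (mem_Cz.1 hu.1).2 hu.2⟩⟩

theorem mi_conj (_h : Fr K a b c) {f u : G} (hf : f ∈ Fx K a b) (hu : Mi K a b u) :
    Mi K a b (f⁻¹ * u * f) := by
  have hfa := fx_cza hf
  refine ⟨(Cz K a).mul_mem ((Cz K a).mul_mem ((Cz K a).inv_mem hfa) hu.1) hfa, ?_⟩
  rw [cj_conj _h.bb (mem_Fx.1 hf).2.2, hu.2]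
  group

theorem ta_mi (h : Fr K a b c) {t : G} (ht : t ∈ TA K a b) : Mi K a b t := ((mem_TA h).1 ht).1

theorem ta_le (h : Fr K a b c) : TA K a b ≤ Cz K a := fun _ ht => (ta_mi h ht).1

theorem ta_leK (h : Fr K a b c) : TA K a b ≤ K := fun _ ht => (mem_Cz.1 (ta_mi h ht).1).1

theorem ta_mi_comm (h : Fr K a b c) {t u : G} (ht : t ∈ TA K a b) (hu : Mi K a b u) :
    t * u = u * t := ((mem_TA h).1 ht).2 u hu

theorem ta_comm (h : Fr K a b c) {s t : G} (hs : s ∈ TA K a b) (ht : t ∈ TA K a b) :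
    s * t = t * s := ta_mi_comm h hs (ta_mi h ht)

theorem ta_swap (h : Fr K a b c) : TA K a b = TA K a c := by
  ext t
  rw [mem_TA h, mem_TA h.swap', mi_c h]
  constructor
  · rintro ⟨h1, h2⟩
    exact ⟨h1, fun w hw => h2 w ((mi_c h).2 hw)⟩
  · rintro ⟨h1, h2⟩
    exact ⟨h1, fun w hw => h2 w ((mi_c h).1 hw)⟩

/-- `T_a` is `F`-invariant. -/
theorem ta_fx (h : Fr K a b c) {f t : G} (hf : f ∈ Fx K a b) (ht : t ∈ TA K a b) :
    f⁻¹ * t * f ∈ TA K a b := by
  refine (mem_TA h).2 ⟨mi_conj h hf (ta_mi h ht), fun w hw => ?_⟩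
  have hf' : f⁻¹ ∈ Fx K a b := (Fx K a b).inv_mem hf
  have h1 := mi_conj h hf' hw
  rw [inv_inv] at h1
  have h2 := ta_mi_comm h ht h1
  calc f⁻¹ * t * f * w = f⁻¹ * (t * (f * w * f⁻¹)) * f := by group
    _ = f⁻¹ * ((f * w * f⁻¹) * t) * f := by rw [h2]
    _ = w * (f⁻¹ * t * f) := by group

/-- `T_a` is normal in `C_K(a)`. -/
theorem ta_cz (h : Fr K a b c) {d t : G} (hd : d ∈ Cz K a) (ht : t ∈ TA K a b) :
    d⁻¹ * t * d ∈ TA K a b := by
  obtain ⟨w, s, hw, hs, e, hwb, hsb⟩ := h.dec (X := Cz K a) cz_le h.bb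
    (fun u hu => h.cz_inv h.bb h.cab.symm hu) hd
  have hwF : w ∈ Fx K a b := mem_Fx.2 ⟨(mem_Cz.1 hw).1, (mem_Cz.1 hw).2, hwb⟩
  have h1 := ta_fx h hwF ht
  have h2 := ta_mi_comm h h1 ⟨hs, hsb⟩
  have e2 : d⁻¹ * t * d = w⁻¹ * t * w := by
    rw [e]
    calc (w * s)⁻¹ * t * (w * s) = s⁻¹ * (w⁻¹ * t * w * s) := by group
      _ = s⁻¹ * (s * (w⁻¹ * t * w)) := by rw [h2]
      _ = _ := by group
  rw [e2]
  exact h1

theorem ta_inv (h : Fr K a b c) : VInv a b (TA K a b) := by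
  constructor
  · intro t ht
    rw [cj_fix h.aa (mem_Cz.1 (ta_le h ht)).2]
    exact ht
  · intro t ht
    rw [(ta_mi h ht).2]
    exact (TA K a b).inv_mem ht

/-- The axis of a tame type has finite index. -/
theorem ta_ind (h : Fr K a b c) (t : Tm K a b c a) : (TA K a b).relIndex (Cz K a) ≠ 0 := by
  obtain ⟨T, hT, h1⟩ := t
  refine Fct.rel_le hT ?_
  intro g hg hgT
  have h2 := h1 g hgT
  have hne : b ≠ a := by
    rintro rfl
    have := h.ab
    rw [h.aa] at this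
    apply h.nc
    rw [← this]
    exact K.one_mem
  have hgb : b * g * b = g⁻¹ := h2.2.2 b (Or.inr (Or.inl h.rot.ty_a)) h.cab.symm hne
  refine (mem_TA h).2 ⟨⟨hg, hgb⟩, ?_⟩
  intro w hw
  have hwK := (mem_Cz.1 hw.1).1
  have hty : Ty K b (b * w) := h.rot.ty_inv h.rot.ty_a hwK hw.2
  have hca : (b * w) * a = a * (b * w) := by
    have c1 : Commute b a := h.cab.symm
    have c2 : Commute w a := (mem_Cz.1 hw.1).2
    exact c1.mul_left c2
  have hne2 : b * w ≠ a := by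
    intro e
    apply h.nc
    have : w = c := by
      calc w = (b * b) * w := by rw [h.bb, one_mul]
        _ = b * (b * w) := by group
        _ = c := by rw [e, h.ba]
    rw [← this]; exact hwK
  have e3 := h2.2.2 (b * w) (Or.inr (Or.inl hty)) hca hne2
  have e4 : (b * w) * g * (b * w) = g⁻¹ := e3
  -- `b w` inverts `g`, `b` inverts `g`
  have e5 : (b * w) * (b * w) = 1 := hty.1
  have e6 : w * g * w⁻¹ = g := by
    have hbw : b * (w * g * (b * w)) = g⁻¹ := by rw [← e4]; group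
    have hwb : b * w = (b * w)⁻¹ := by
      rw [eq_comm, inv_eq_iff_mul_eq_one]; exact e5
    have e7 : w * g * (b * w) = b * g⁻¹ := by
      rw [← hbw]
      calc w * g * (b * w) = (b * b) * (w * g * (b * w)) := by rw [h.bb, one_mul]
        _ = _ := by group
    rw [hwb] at e7
    have e8 : w * g * w⁻¹ * b = b * g⁻¹ := by
      rw [← e7, mul_inv_rev, inv_of_sq h.bb]; group
    calc w * g * w⁻¹ = w * g * w⁻¹ * b * b := by rw [mul_assoc (w * g * w⁻¹) b b, h.bb, mul_one]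
      _ = b * g⁻¹ * b := by rw [e8]
      _ = g := by
        have := cj_inv (x := g) h.bb
        rw [this, hgb, inv_inv]
  calc g * w = (w * g * w⁻¹) * w := by rw [e6]
    _ = w * g := by group

/-! ### Centralizers -/

/-- The centralizer of a set of elements of `F` is invariant under the four-group. -/
theorem cent_inv (h : Fr K a b c) {X : Set G} (hX : ∀ x ∈ X, x ∈ Fx K a b) :
    VInv a b (K ⊓ Subgroup.centralizer X : Subgroup G) := by
  have key : ∀ z : G, z * z = 1 → (∀ x ∈ X, x * z = z * x) →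
      ∀ u ∈ K ⊓ Subgroup.centralizer X, z * u * z ∈ K ⊓ Subgroup.centralizer X := by
    intro z hz hzX u hu
    obtain ⟨h1, h2⟩ := Subgroup.mem_inf.1 hu
    refine Subgroup.mem_inf.2 ⟨h.cjmem hz h1, ?_⟩
    rw [Subgroup.mem_centralizer_iff] at h2 ⊢
    intro x hx
    have c1 : Commute x z := hzX x hx
    have c2 : Commute x u := h2 x hx
    exact (c1.mul_right c2).mul_right c1
  exact ⟨key a h.aa fun x hx => (mem_Fx.1 (hX x hx)).2.1,
    key b h.bb fun x hx => (mem_Fx.1 (hX x hx)).2.2⟩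

/-- The centralizer of a subset of `F` normalised by `f` is `f`-invariant. -/
theorem cent_conj (h : Fr K a b c) {X : Set G} {f : G}
    (hX : ∀ x ∈ X, f * x * f⁻¹ ∈ X) {u : G}
    (hu : u ∈ K ⊓ Subgroup.centralizer X) : f⁻¹ * u * f ∈ K ⊓ Subgroup.centralizer X := by
  obtain ⟨h1, h2⟩ := Subgroup.mem_inf.1 hu
  refine Subgroup.mem_inf.2 ⟨h.cjk h1, ?_⟩
  rw [Subgroup.mem_centralizer_iff] at h2 ⊢
  intro x hx
  have e := h2 _ (hX x hx)
  calc x * (f⁻¹ * u * f) = f⁻¹ * ((f * x * f⁻¹) * u) * f := by group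
    _ = f⁻¹ * (u * (f * x * f⁻¹)) * f := by rw [e]
    _ = f⁻¹ * u * f * x := by group

/-- If `W` has finite index in `D`, then `fi (W ⊓ D) x` gives `fi D x`. -/
theorem fi_up {W D : Subgroup G} (hW : W.relIndex D ≠ 0) {x : G} (hx : fi (W ⊓ D) x) : fi D x := by
  have h1 : (W ⊓ D).relIndex D ≠ 0 := by rwa [Subgroup.inf_relIndex_right]
  exact Subgroup.relIndex_ne_zero_trans hx h1

theorem inf_ind {W W' D : Subgroup G} (h1 : W.relIndex D ≠ 0) (h2 : W'.relIndex D ≠ 0) :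
    (W ⊓ W').relIndex D ≠ 0 := Subgroup.relIndex_inf_ne_zero h1 h2

theorem ind_mono {W W' D : Subgroup G} (h1 : W.relIndex D ≠ 0) (h2 : W ≤ W') :
    W'.relIndex D ≠ 0 := fun h0 => h1 (Subgroup.relIndex_eq_zero_of_le_left h2 h0)

/-- The inverted elements of `C_K(a)` have centralizers of finite index in `C_K(a)`. -/
theorem mi_fi' (h : Fr K a b c) (hF : (Fx K a b : Set G).Finite) {u : G}
    (hu : Mi K a b u) : fi (Cz K a) u := mi_fi shu h hF hu

/-! ### Generation -/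

/-- Subgroups of finite index in the three centralizers. -/
theorem gen_top (m : MinC K a b c) (t : AT K a b c) {L : Subgroup G} (hL : L ≤ K)
    (hV : VInv a b L) (ha : L.relIndex (Cz K a) ≠ 0) (hb : L.relIndex (Cz K b) ≠ 0)
    (hc : L.relIndex (Cz K c) ≠ 0) : L = K :=
  m.ind L hL hV (Fi.thmFI m.fr t m.fin ⟨hL, hV, ha, hb, hc⟩)

/-- The supremum of invariant subgroups is invariant. -/
theorem sup_inv {X Y : Subgroup G} (h : Fr K a b c) (hX : VInv a b X) (hY : VInv a b Y) :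
    VInv a b (X ⊔ Y) := by
  have key : ∀ z : G, z * z = 1 → (∀ u ∈ X, z * u * z ∈ X) → (∀ u ∈ Y, z * u * z ∈ Y) →
      ∀ u ∈ X ⊔ Y, z * u * z ∈ X ⊔ Y := by
    intro z hz h1 h2 u hu
    rw [Subgroup.sup_eq_closure] at hu
    refine Subgroup.closure_induction (p := fun u _ => z * u * z ∈ X ⊔ Y) ?_ ?_ ?_ ?_ hu
    · rintro x (hx | hx)
      · exact Subgroup.mem_sup_left (h1 x hx)
      · exact Subgroup.mem_sup_right (h2 x hx)
    · rw [mul_one, hz]; exact Subgroup.one_mem _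
    · intro x y _ _ hx hy
      rw [cj_mul hz]
      exact Subgroup.mul_mem _ hx hy
    · intro x _ hx
      rw [cj_inv hz]
      exact Subgroup.inv_mem _ hx
  exact ⟨key a h.aa hX.1 hY.1, key b h.bb hX.2 hY.2⟩

/-- The supremum of two subgroups normalised by `f`. -/
theorem sup_conj {X Y : Subgroup G} {f : G} (hX : ∀ u ∈ X, f⁻¹ * u * f ∈ X)
    (hY : ∀ u ∈ Y, f⁻¹ * u * f ∈ Y) : ∀ u ∈ X ⊔ Y, f⁻¹ * u * f ∈ X ⊔ Y := by
  intro u hu
  rw [Subgroup.sup_eq_closure] at hu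
  refine Subgroup.closure_induction (p := fun u _ => f⁻¹ * u * f ∈ X ⊔ Y) ?_ ?_ ?_ ?_ hu
  · rintro x (hx | hx)
    · exact Subgroup.mem_sup_left (hX x hx)
    · exact Subgroup.mem_sup_right (hY x hx)
  · rw [mul_one, inv_mul_cancel]; exact Subgroup.one_mem _
  · intro x y _ _ hx hy
    have e : f⁻¹ * (x * y) * f = (f⁻¹ * x * f) * (f⁻¹ * y * f) := by group
    rw [e]
    exact Subgroup.mul_mem _ hx hy
  · intro x _ hx
    have e : f⁻¹ * x⁻¹ * f = (f⁻¹ * x * f)⁻¹ := by group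
    rw [e]
    exact Subgroup.inv_mem _ hx

/-! ### `T_a' = C_(T_a)(F_a)` -/

/-- The elements of `T_a` which commute with `F_a`. -/
def TP (K : Subgroup G) (a b : G) : Subgroup G :=
  TA K a b ⊓ Subgroup.centralizer {f | f ∈ Fx K a b ∧ fi (Cz K a) f}

theorem mem_TP {t : G} : t ∈ TP K a b ↔ t ∈ TA K a b ∧
    ∀ f ∈ Fx K a b, fi (Cz K a) f → f * t = t * f := by
  unfold TP
  rw [Subgroup.mem_inf, Subgroup.mem_centralizer_iff]
  constructor
  · rintro ⟨h1, h2⟩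
    exact ⟨h1, fun f hf hf' => h2 f ⟨hf, hf'⟩⟩
  · rintro ⟨h1, h2⟩
    exact ⟨h1, fun f hf => h2 f hf.1 hf.2⟩

theorem tp_ind (h : Fr K a b c) (hF : (Fx K a b : Set G).Finite) (t : Tm K a b c a) :
    (TP K a b).relIndex (Cz K a) ≠ 0 := by
  refine inf_ind (ta_ind h t) ?_
  exact Fct.cent_ne (hF.subset fun x hx => hx.1) fun x hx => hx.2

theorem tp_inv (h : Fr K a b c) : VInv a b (TP K a b) := by
  constructor
  · intro t ht
    rw [cj_fix h.aa (mem_Cz.1 (ta_le h (mem_TP.1 ht).1)).2]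
    exact ht
  · intro t ht
    rw [(ta_mi h (mem_TP.1 ht).1).2]
    exact (TP K a b).inv_mem ht

theorem tp_fx (h : Fr K a b c) {f t : G} (hf : f ∈ Fx K a b) (ht : t ∈ TP K a b) :
    f⁻¹ * t * f ∈ TP K a b := by
  obtain ⟨h1, h2⟩ := mem_TP.1 ht
  refine mem_TP.2 ⟨ta_fx h hf h1, fun g hg hg' => ?_⟩
  have hf' : f⁻¹ ∈ Fx K a b := (Fx K a b).inv_mem hf
  have h3 : f * g * f⁻¹ ∈ Fx K a b := (Fx K a b).mul_mem ((Fx K a b).mul_mem hf hg) hf'
  have h4 : fi (Cz K a) (f * g * f⁻¹) := by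
    have := fi_fx (fx_cza hf') hg'
    rwa [inv_inv] at this
  have e := h2 _ h3 h4
  calc g * (f⁻¹ * t * f) = f⁻¹ * ((f * g * f⁻¹) * t) * f := by group
    _ = f⁻¹ * (t * (f * g * f⁻¹)) * f := by rw [e]
    _ = f⁻¹ * t * f * g := by group

end Pool.Agent.FourGp.FF.Fp
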