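import Pool.Agent.Lib.MP_fb3619_al.FP.Base

/-!
# MP_fb3619_al, board FPF, row CFI (paper 8)

`1 ≠ e ∈ F_a`: `C(e) ∩ D_b` is finite.
-/

set_option autoImplicit false

universe u

namespace Pool.Agent.FourGp.FF.Fp

open Pool.Agent.FourGp.H47 (Odd' inv_of_sq conj_inv_pow mul_inv_self odd_conj comm_of_inv
  mul_inv_self' comm_pow comm_inv conj_comm comm_conj)
open Pool.Agent.FourGp.H99 (LF)
open Pool.Agent.FourGp.FF.Abo
open Pool.Agent.FourGp.FF.Pq (TA mem_TA)
open Pool.Agent.FourGp.FF.Bs (MinC Min0 HerS CkS CmsS)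
open Pool.Agent.FourGp.FF.Fi (cjg Tm AT Fam)

namespace Cfi

/-- A group with a finite subgroup of finite index is finite. -/
theorem fin_of_ind {G : Type u} [Group G] {L D : Subgroup G}
    (hL : {x | x ∈ L ∧ x ∈ D}.Finite) (hi : L.relIndex D ≠ 0) : (D : Set G).Finite := by
  obtain ⟨R, hR, h1⟩ := cover_of_relIndex hi
  refine ((hL.prod R.finite_toSet).image (fun p : G × G => p.1 * p.2)).subset ?_
  intro g hg
  obtain ⟨r, hr, h2⟩ := h1 g hg
  refine ⟨(g * r⁻¹, r), ⟨⟨h2, D.mul_mem hg (D.inv_mem (hR r hr))⟩, hr⟩, ?_⟩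
  show g * r⁻¹ * r = g
  group

end Cfi

theorem cfi (h2 : NneS.{u}) (h6 : Y2S.{u}) (h7 : SfiS.{u}) : CfiS.{u} := by
  intro G _ K a b c m t e he hea he1
  have h := m.fr
  have hF := m.fin
  set Xa : Set G := {f | f ∈ Fx K a b ∧ fi (Cz K a) f} with hXa
  set Xb : Set G := {f | f ∈ Fx K a b ∧ fi (Cz K b) f} with hXb
  set Xc : Set G := {f | f ∈ Fx K a b ∧ fi (Cz K c) f} with hXc
  have hXaF : Xa.Finite := hF.subset fun x hx => hx.1
  have hXbF : Xb.Finite := hF.subset fun x hx => hx.1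
  have hXcF : Xc.Finite := hF.subset fun x hx => hx.1
  -- Y2 with `E = ⟨e⟩`
  have hZ : Subgroup.centralizer ((Subgroup.zpowers e : Subgroup G) : Set G) =
      Subgroup.centralizer {e} := by
    rw [Subgroup.zpowers_eq_closure, Subgroup.centralizer_closure]
  have hA : ∀ f ∈ Fx K a b, fi (Cz K c) f → fi (TA K b a ⊓ Subgroup.centralizer {e}) f := by
    intro f hf hfc
    have := (h6 G K a b c m t (Subgroup.zpowers e) (by
      rw [Subgroup.zpowers_le]; exact he) (by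
      intro x hx
      have : Subgroup.zpowers e ≤ HD (Cz K a) := by
        rw [Subgroup.zpowers_le]; exact hea
      exact this hx) (by
      rw [Ne, Subgroup.zpowers_eq_bot]; exact he1)).1 f hf hfc
    rwa [hZ] at this
  -- Y2 for the frame `(c, b, a)` with `E = F_c`
  set Fc : Subgroup G := Fx K a b ⊓ HD (Cz K c) with hFc
  have hFcX : (Fc : Set G) = Xc := by
    ext x
    rw [hFc, hXc, SetLike.mem_coe, Subgroup.mem_inf, mem_HD, Set.mem_ofPred_eq]
  have hB : ∀ f ∈ Fx K a b, fi (Cz K a) f → fi (TA K b a ⊓ Subgroup.centralizer Xc) f := by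
    intro f hf hfa
    have h0 := (h6 G K c b a (minC_rev m) (at_rev t) Fc (by
      rw [fx_cb h]; exact inf_le_left) (fun x hx => hx.2) (by
      obtain ⟨g, hg, hg1, -, hgc⟩ := h2 G K a b c m
      intro h0
      have : g ∈ Fc := ⟨hg, hgc⟩
      rw [h0, Subgroup.mem_bot] at this
      exact hg1 this)).1 f (by rw [fx_cb h]; exact hf) hfa
    rwa [hFcX, ← ta_swap h.swap] at h0
  -- `Y = T_b ⊓ C(e) ⊓ C(F_c) ⊓ C(F_a) ⊓ C(F_b)` has finite index in `T_b ⊓ C(e)`
  set P : Subgroup G := TA K b a ⊓ Subgroup.centralizer {e} with hP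
  have hc1 : (Subgroup.centralizer Xc).relIndex P ≠ 0 :=
    Fct.cent_ne hXcF fun x hx => hA x hx.1 hx.2
  have hc2 : (Subgroup.centralizer Xa).relIndex (P ⊓ Subgroup.centralizer Xc) ≠ 0 := by
    refine Fct.cent_ne hXaF fun x hx => Fct.fi_mono (hB x hx.1 hx.2) ?_
    exact le_inf (inf_le_left.trans inf_le_left) inf_le_right
  have hc3 : (Subgroup.centralizer Xb).relIndex P ≠ 0 := by
    refine Fct.cent_ne hXbF fun x hx => Fct.fi_mono hx.2 ?_
    exact inf_le_left.trans (ta_le h.swap)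
  have hc4 : (Subgroup.centralizer Xc ⊓ P).relIndex P ≠ 0 := by
    rwa [Subgroup.inf_relIndex_right]
  have hc5 : (Subgroup.centralizer Xa).relIndex P ≠ 0 := by
    refine Subgroup.relIndex_ne_zero_trans (K := Subgroup.centralizer Xc ⊓ P) ?_ hc4
    rwa [inf_comm]
  have hc6 := inf_ind (inf_ind hc1 hc5) hc3
  have hPfin : (P : Set G).Finite := by
    refine Cfi.fin_of_ind ?_ hc6
    refine (h7 G K a b c m t).subset ?_
    rintro x ⟨⟨⟨hxc, hxa⟩, hxb⟩, hxP⟩
    refine ⟨ta_leK h.swap hxP.1, ?_⟩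
    rintro f hf (hf' | hf' | hf')
    · exact (Subgroup.mem_centralizer_iff.1 hxa f ⟨hf, hf'⟩)
    · exact (Subgroup.mem_centralizer_iff.1 hxb f ⟨hf, hf'⟩)
    · exact (Subgroup.mem_centralizer_iff.1 hxc f ⟨hf, hf'⟩)
  -- `D_b ⊓ C(e)`
  have hPi : P.relIndex (Cz K b ⊓ Subgroup.centralizer {e}) ≠ 0 := by
    have h1 : (TA K b a).relIndex (Cz K b ⊓ Subgroup.centralizer {e}) ≠ 0 := fun h0 =>
      ta_ind h.swap t.tb.swap (Subgroup.relIndex_eq_zero_of_le_right inf_le_left h0)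
    have h2 : (Subgroup.centralizer {e}).relIndex (Cz K b ⊓ Subgroup.centralizer {e}) ≠ 0 := by
      rw [Subgroup.relIndex_eq_one.2 inf_le_right]
      exact one_ne_zero
    exact inf_ind h1 h2
  have hfin : ((Cz K b ⊓ Subgroup.centralizer {e} : Subgroup G) : Set G).Finite :=
    Cfi.fin_of_ind (hPfin.subset fun x hx => hx.1) hPi
  refine hfin.subset ?_
  rintro x ⟨h1, h2⟩
  exact ⟨h1, Subgroup.mem_centralizer_singleton_iff.2 h2⟩

end Pool.Agent.FourGp.FF.Fp
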