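import Pool.Agent.Lib.MP_fb3619_al.FP.Base

/-!
# MP_fb3619_al, board FPF, row CHD (paper 9)

`1 ≠ e ∈ F_a`: every `y ∈ D_b⁻` which commutes with `e` has a centralizer of finite index in
`D_a`.
-/

set_option autoImplicit false

universe u

namespace Pool.Agent.FourGp.FF.Fp

open Pool.Agent.FourGp.H47 (Odd' inv_of_sq conj_inv_pow mul_inv_self odd_conj comm_of_inv
  mul_inv_self' comm_pow comm_inv conj_comm comm_conj)
open Pool.Agent.FourGp.H99 (LF)
open Pool.Agent.FourGp.FF.Abo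
open Pool.Agent.FourGp.FF.Pq (TA mem_TA)
open Pool.Agent.FourGp.FF.Bs (MinC Min0 HerS CkS CmsS)
open Pool.Agent.FourGp.FF.Fi (cjg Tm AT Fam mem_cjg rel_cjg)

/-- A finite group: every subgroup has finite index in it. -/
theorem ind_of_fin {G : Type u} [Group G] {L D : Subgroup G} (hD : (D : Set G).Finite) :
    L.relIndex D ≠ 0 := by
  have : Finite D := hD.to_subtype
  unfold Subgroup.relIndex
  exact Subgroup.index_ne_zero_of_finite

theorem chd (hC : CkS.{u}) (h8 : CfiS.{u}) : ChdS.{u} := by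
  intro G _ K a b c m t e he hea he1 y hy hye
  have h := m.fr
  have heF := mem_Fx.1 he
  -- the locally finite subgroup `L`
  set L : Subgroup G := K ⊓ Subgroup.centralizer {e} with hL
  have hmL : ∀ {x : G}, x ∈ L ↔ x ∈ K ∧ x * e = e * x := by
    intro x
    rw [hL, Subgroup.mem_inf, Subgroup.mem_centralizer_singleton_iff]
  have hLK : L ≤ K := inf_le_left
  have hLF : LF L := (hC G K a b c m.toMin0).1 e he he1
  have hLV : VInv a b L := cent_inv h (X := {e}) (by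
    intro x hx
    rw [Set.mem_singleton_iff] at hx
    rw [hx]; exact he)
  -- `L₁ = L ⊓ D_a`
  have hL1V : VInv a b (L ⊓ Cz K a) := by
    constructor
    · rintro u ⟨h1, h2⟩
      exact ⟨hLV.1 u h1, h.cz_inv h.aa rfl h2⟩
    · rintro u ⟨h1, h2⟩
      exact ⟨hLV.2 u h1, h.cz_inv h.bb h.cab.symm h2⟩
  have hfb : ((L ⊓ Subgroup.centralizer {b} : Subgroup G) : Set G).Finite := by
    refine (h8 G K a b c m t e he hea he1).subset ?_
    rintro x ⟨h1, h2⟩
    have h1' := hmL.1 h1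
    exact ⟨mem_Cz.2 ⟨h1'.1, Subgroup.mem_centralizer_singleton_iff.1 h2⟩, h1'.2⟩
  have hfc : ((L ⊓ Subgroup.centralizer {c} : Subgroup G) : Set G).Finite := by
    refine (h8 G K a c b (minC_swap' m) t.swap' e (by rw [fx_ac h]; exact he) hea he1).subset ?_
    rintro x ⟨h1, h2⟩
    have h1' := hmL.1 h1
    exact ⟨mem_Cz.2 ⟨h1'.1, Subgroup.mem_centralizer_singleton_iff.1 h2⟩, h1'.2⟩
  have hi1 : (L ⊓ Cz K a).relIndex L ≠ 0 := by
    refine cnt G K a b c h m.fin L (L ⊓ Cz K a) hLK inf_le_left hLV hL1V hLF ?_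
    rintro v (rfl | rfl | rfl)
    · have : L ⊓ Subgroup.centralizer {v} ≤ L ⊓ Cz K v := by
        rintro x ⟨h1, h2⟩
        exact ⟨h1, mem_Cz.2 ⟨hLK h1, Subgroup.mem_centralizer_singleton_iff.1 h2⟩⟩
      rw [Subgroup.relIndex_eq_one.2 this]
      exact one_ne_zero
    · exact ind_of_fin hfb
    · exact ind_of_fin hfc
  -- `T' = T_a ⊓ C(e)`
  set T' : Subgroup G := TA K a b ⊓ Subgroup.centralizer {e} with hT'
  have hT'a : T'.relIndex (Cz K a) ≠ 0 := inf_ind (ta_ind h t.ta) hea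
  have hT'L : T'.relIndex L ≠ 0 := by
    refine Subgroup.relIndex_ne_zero_trans (K := L ⊓ Cz K a) ?_ hi1
    exact fun h0 => hT'a (Subgroup.relIndex_eq_zero_of_le_right inf_le_right h0)
  -- the conjugate of `T'` under `y`
  have hyK : y ∈ K := (mem_Cz.1 hy.1).1
  have hyL : y ∈ L := hmL.2 ⟨hyK, hye⟩
  have hcL : cjg y⁻¹ L = L := by
    ext g
    rw [mem_cjg, _root_.inv_inv]
    constructor
    · intro hg
      have := L.mul_mem (L.mul_mem (L.inv_mem hyL) hg) hyL
      have e1 : y⁻¹ * (y * g * y⁻¹) * y = g := by group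
      rwa [e1] at this
    · intro hg
      exact L.mul_mem (L.mul_mem hyL hg) (L.inv_mem hyL)
  have hcT : (cjg y⁻¹ T').relIndex L ≠ 0 := by
    have := rel_cjg hT'L y⁻¹
    rwa [hcL] at this
  have hT'L' : T' ≤ L := by
    rintro x ⟨h1, h2⟩
    exact Subgroup.mem_inf.2 ⟨ta_leK h h1, h2⟩
  have hcD : (cjg y⁻¹ T').relIndex (Cz K a) ≠ 0 :=
    Subgroup.relIndex_ne_zero_trans (K := T')
      (fun h0 => hcT (Subgroup.relIndex_eq_zero_of_le_right hT'L' h0)) hT'a
  have hD : (cjg y⁻¹ T' ⊓ T').relIndex (Cz K a) ≠ 0 := inf_ind hcD hT'a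
  refine Fct.rel_le hD ?_
  rintro g hg ⟨h1', -⟩
  have h1 : y * g * y⁻¹ ∈ T' := by
    have h0 : g ∈ cjg y⁻¹ T' := h1'
    rwa [mem_cjg, _root_.inv_inv] at h0
  -- `s = y g y⁻¹` commutes with `a`
  have hga : g * a = a * g := (mem_Cz.1 hg).2
  have hsa : (y * g * y⁻¹) * a = a * (y * g * y⁻¹) := (mem_Cz.1 (ta_le h h1.1)).2
  have hya : a * y * a = y⁻¹ := hy.2
  have e1 : a * (y * g * y⁻¹) * a = y⁻¹ * g * y := by
    rw [cj_mul h.aa, cj_mul h.aa, cj_inv h.aa, hya, cj_fix h.aa hga, _root_.inv_inv]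
  have e2 : y * g * y⁻¹ = y⁻¹ * g * y := by
    rw [← e1]
    exact (cj_fix h.aa hsa).symm
  have e3 : Commute (y * y) g := by
    show y * y * g = g * (y * y)
    calc y * y * g = y * (y * g * y⁻¹) * y := by group
      _ = y * (y⁻¹ * g * y) * y := by rw [e2]
      _ = g * (y * y) := by group
  rw [Subgroup.mem_centralizer_singleton_iff]
  obtain ⟨n, hn⟩ := h.odd y hyK
  have e4 : y = (y * y) ^ (n + 1) := by
    calc y = y ^ (2 * n + 1) * y := by rw [hn, one_mul]
      _ = y ^ (2 * (n + 1)) := by rw [← pow_succ]; ring_nf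
      _ = (y * y) ^ (n + 1) := by rw [pow_mul, pow_two]
  rw [e4]
  exact (e3.pow_left (n + 1)).symm.eq

end Pool.Agent.FourGp.FF.Fp
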