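import Pool.Agent.Lib.MP_fb3619_al.FP.Base

/-!
# MP_fb3619_al, board FPF, row FPF (paper 11)
-/

set_option autoImplicit false

universe u

namespace Pool.Agent.FourGp.FF.Fp

open Pool.Agent.FourGp.H47 (Odd' inv_of_sq conj_inv_pow mul_inv_self odd_conj comm_of_inv
  mul_inv_self' comm_pow comm_inv conj_comm comm_conj)
open Pool.Agent.FourGp.H99 (LF)
open Pool.Agent.FourGp.FF.Abo
open Pool.Agent.FourGp.FF.Pq (TA mem_TA)
open Pool.Agent.FourGp.FF.Bs (MinC Min0 HerS CkS CmsS)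
open Pool.Agent.FourGp.FF.Fi (cjg Tm AT Fam)

theorem fpf (h5 : PffS.{u}) (h9 : ChdS.{u}) (h10 : HdzS.{u}) : FpfS.{u} := by
  intro G _ K a b c m t
  have h := m.fr
  refine ⟨(h5 G K a b c m t).2, (h5 G K a b c m t).1, ?_⟩
  intro e he hef he1
  have k1 : ∀ y, Mi K b a y → y * e = e * y → y = 1 := fun y hy hye =>
    h10 G K b a c (minC_swap m) t.swap y hy (h9 G K a b c m t e he hef he1 y hy hye)
  have he' : e ∈ Fx K a c := by rw [fx_ac h]; exact he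
  have k2 : ∀ y, Mi K c a y → y * e = e * y → y = 1 := fun y hy hye =>
    h10 G K c a b (minC_rot2 m) (at_rot2 t) y hy
      (h9 G K a c b (minC_swap' m) t.swap' e he' hef he1 y hy hye)
  refine ⟨k1, k2, ?_⟩
  intro k hk hke
  have hLV : VInv a b (K ⊓ Subgroup.centralizer {e} : Subgroup G) := cent_inv h (by
    intro x hx
    rw [Set.mem_singleton_iff] at hx
    rw [hx]; exact he)
  obtain ⟨α, β, γ, hα, hβ, hγ, e1, e2, e3, e4, e5, e6⟩ :=
    h.fac (X := K ⊓ Subgroup.centralizer {e}) inf_le_left hLV.1 hLV.2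
      (show k ∈ K ⊓ Subgroup.centralizer {e} from Subgroup.mem_inf.2
        ⟨hk, Subgroup.mem_centralizer_singleton_iff.2 hke⟩)
  have hβ1 : β = 1 := k1 β ⟨mem_Cz.2 ⟨hβ.1, e3⟩, e4⟩
    (Subgroup.mem_centralizer_singleton_iff.1 hβ.2)
  have hγ1 : γ = 1 := k2 γ ⟨mem_Cz.2 ⟨hγ.1, e5⟩, e6⟩
    (Subgroup.mem_centralizer_singleton_iff.1 hγ.2)
  rw [e1, hβ1, hγ1, mul_one, mul_one]
  exact mem_Cz.2 ⟨hα.1, e2⟩

end Pool.Agent.FourGp.FF.Fp
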