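import Pool.Agent.Lib.MP_fb3619_al.FP.Iface
import Pool.Agent.Lib.MP_fb3619_al.PQ.Tam

/-!
# MP_fb3619_al, board FPF, row HDF (paper 3): `C_K(b) ∩ HD_a` is finite and meets `T_b` trivially
-/

set_option autoImplicit false

universe u

namespace Pool.Agent.FourGp.FF.Fp

open Pool.Agent.FourGp.H47 (Odd' inv_of_sq conj_inv_pow mul_inv_self odd_conj comm_of_inv
  mul_inv_self' comm_pow comm_inv conj_comm comm_conj)
open Pool.Agent.FourGp.H99 (LF)
open Pool.Agent.FourGp.FF.Abo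
open Pool.Agent.FourGp.FF.Pq (TA mem_TA thc)
open Pool.Agent.FourGp.FF.Bs (MinC Min0 HerS CkS CmsS)
open Pool.Agent.FourGp.FF.Fi (cjg Tm AT Fam)

variable {G : Type u} [Group G] {K : Subgroup G} {a b c : G}

/-- An element which commutes with the square of an element of odd order commutes with it. -/
theorem hdf_comm {t w : G} (hw : Odd' w) (h : t * (w * w) = w * w * t) : t * w = w * t := by
  obtain ⟨k, hk⟩ := hw.sqrt
  have e : w = (w * w) ^ k := by
    rw [(Commute.refl w).mul_pow, hk]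
  have h1 : Commute t (w * w) := h
  have h2 : Commute t ((w * w) ^ k) := h1.pow_right k
  rw [← e] at h2
  exact h2

/-- The elements of `C_K(b)` inverted by all involutions commuting with `b` lie in `T_b`. -/
theorem hdf_TT (h : Fr K a b c) {t : G} (ht : TT K a b c b t) : t ∈ TA K b a := by
  obtain ⟨htK, htb, hty⟩ := ht
  have hab : a ≠ b := by
    rintro rfl
    have := h.ab
    rw [h.aa] at this
    exact h.nc (this ▸ K.one_mem)
  have hta : a * t * a = t⁻¹ := hty a (Or.inl ⟨h.aa, by rw [h.aa]; exact K.one_mem⟩) h.cab hab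
  refine (mem_TA h.swap).2 ⟨⟨mem_Cz.2 ⟨htK, htb⟩, hta⟩, ?_⟩
  rintro w ⟨hw, hwa⟩
  obtain ⟨hwK, hwb⟩ := mem_Cz.1 hw
  have hyy : (w⁻¹ * a * w) * (w⁻¹ * a * w) = 1 := by
    calc (w⁻¹ * a * w) * (w⁻¹ * a * w) = w⁻¹ * (a * a) * w := by group
      _ = 1 := by rw [h.aa]; group
  have hya : (w⁻¹ * a * w) * a ∈ K := by
    have e : (w⁻¹ * a * w) * a = w⁻¹ * (a * w * a) := by group
    rw [e, hwa]
    exact K.mul_mem (K.inv_mem hwK) (K.inv_mem hwK)
  have cwb : Commute w b := hwb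
  have cab : Commute a b := h.cab
  have hyb : (w⁻¹ * a * w) * b = b * (w⁻¹ * a * w) := by
    have : Commute (w⁻¹ * a * w) b := (cwb.inv_left.mul_left cab).mul_left cwb
    exact this
  have hne : w⁻¹ * a * w ≠ b := by
    intro e
    rw [e] at hya
    rw [h.ba] at hya
    exact h.nc hya
  have h1 := hty (w⁻¹ * a * w) (Or.inl ⟨hyy, hya⟩) hyb hne
  -- `w⁻¹ a w t w⁻¹ a w = t⁻¹`
  have h2 : a * (w * t * w⁻¹) * a = w * t⁻¹ * w⁻¹ := by
    calc a * (w * t * w⁻¹) * a = w * ((w⁻¹ * a * w) * t * (w⁻¹ * a * w)) * w⁻¹ := by group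
      _ = _ := by rw [h1]
  have h3 : a * (w * t * w⁻¹) * a = w⁻¹ * t⁻¹ * w := by
    have hwi : a * w⁻¹ * a = w := by
      calc a * w⁻¹ * a = a * (a * w * a) * a := by rw [hwa]
        _ = (a * a) * w * (a * a) := by group
        _ = w := by rw [h.aa]; group
    calc a * (w * t * w⁻¹) * a = (a * w * a) * (a * a) * (a * t * a) * (a * a) * (a * w⁻¹ * a) *
          ((a * a)) := by
            have haa : a * a = 1 := h.aa
            have hai : a⁻¹ = a := inv_of_sq h.aa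
            rw [haa]
            simp only [mul_one]
            calc a * (w * t * w⁻¹) * a = a * w * (1 : G) * t * (1 : G) * w⁻¹ * a := by group
              _ = a * w * (a * a) * t * (a * a) * w⁻¹ * a := by rw [haa]
              _ = a * w * a * (a * t * a) * (a * w⁻¹ * a) := by group
      _ = w⁻¹ * t⁻¹ * w := by
            rw [h.aa, hwa, hta, hwi]
            group
  have h4 : t⁻¹ * (w * w) = w * w * t⁻¹ := by
    have e := h3.symm.trans h2
    calc t⁻¹ * (w * w) = w * (w⁻¹ * t⁻¹ * w) * w := by group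
      _ = w * (w * t⁻¹ * w⁻¹) * w := by rw [e]
      _ = _ := by group
  have h5 : Commute t⁻¹ (w * w) := h4
  have h6 : Commute t (w * w) := by
    have := h5.inv_left
    rwa [inv_inv] at this
  exact hdf_comm (h.odd w hwK) h6

/-- `T_b` has finite index in `C_K(b)` when the type of `b` is tame. -/
theorem hdf_ind (h : Fr K a b c) (hT : Tm K a b c b) : (TA K b a).relIndex (Cz K b) ≠ 0 := by
  obtain ⟨T, h1, h2⟩ := hT
  have hle : T ≤ TA K b a := fun t ht => hdf_TT h (h2 t ht)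
  intro h0
  have h3 := Subgroup.relIndex_dvd_of_le_left (Cz K b) hle
  rw [h0] at h3
  exact h1 (Nat.eq_zero_of_zero_dvd h3)

/-- The inverted elements of `C_K(b)`: by `a` or by `c`, this is the same. -/
theorem hdf_mi (h : Fr K a b c) {w : G} : Mi K b a w ↔ Mi K b c w := by
  constructor
  · rintro ⟨h1, h2⟩
    exact ⟨h1, h.inv_c (mem_Cz.1 h1).2 h2⟩
  · rintro ⟨h1, h2⟩
    exact ⟨h1, h.rot.swap.inv_c (mem_Cz.1 h1).2 h2⟩

theorem hdf_ta (h : Fr K a b c) {t : G} (ht : t ∈ TA K b a) : t ∈ TA K b c := by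
  obtain ⟨h1, h2⟩ := (mem_TA h.swap).1 ht
  exact (mem_TA h.rot).2 ⟨(hdf_mi h).1 h1, fun w hw => h2 w ((hdf_mi h).2 hw)⟩

/-- Row HDF. -/
theorem hdf : HdfS.{u} := by
  intro G _ K a b c hm hT
  have h := hm.fr
  have hF : (Fx K b c : Set G).Finite := by
    rw [h.fx_rot]
    exact hm.fin
  have key : ∀ t ∈ TA K b a, fi (Cz K a) t → t = 1 := fun t ht hfi =>
    thc G K b c a h.rot hF (hm.nolf.rot h) t (hdf_ta h ht) hfi
  refine ⟨key, ?_⟩
  obtain ⟨R, -, hR⟩ := cover_of_relIndex (hdf_ind h hT.tb)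
  have hR' : ∀ x : {x | x ∈ Cz K b ∧ fi (Cz K a) x}, ∃ r : R, x.1 * (r : G)⁻¹ ∈ TA K b a := by
    rintro ⟨x, hx, -⟩
    obtain ⟨r, hr, h1⟩ := hR x hx
    exact ⟨⟨r, hr⟩, h1⟩
  choose f hf using hR'
  have hinj : Function.Injective f := by
    rintro ⟨x, hx, hx'⟩ ⟨y, hy, hy'⟩ e
    have h1 := hf ⟨x, hx, hx'⟩
    have h2 := hf ⟨y, hy, hy'⟩
    rw [← e] at h2
    have h3 := (TA K b a).mul_mem h1 ((TA K b a).inv_mem h2)
    have e2 : x * ((f ⟨x, hx, hx'⟩ : R) : G)⁻¹ * (y * ((f ⟨x, hx, hx'⟩ : R) : G)⁻¹)⁻¹ =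
        x * y⁻¹ := by group
    rw [e2] at h3
    have h4 : fi (Cz K a) (x * y⁻¹) :=
      (HD (Cz K a)).mul_mem (mem_HD.2 hx') ((HD (Cz K a)).inv_mem (mem_HD.2 hy'))
    have h5 := key _ h3 h4
    exact Subtype.ext (mul_inv_eq_one.1 h5)
  have : Finite {x | x ∈ Cz K b ∧ fi (Cz K a) x} := Finite.of_injective f hinj
  exact Set.toFinite _

end Pool.Agent.FourGp.FF.Fp
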