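import Pool.Agent.Lib.MP_fb3619_al.FP.Base

/-!
# MP_fb3619_al, board FPF, row HDZ (paper 10): `D_a⁻ ∩ HD_b = 1`
-/

set_option autoImplicit false

universe u

namespace Pool.Agent.FourGp.FF.Fp

open Pool.Agent.FourGp.H47 (Odd' inv_of_sq conj_inv_pow mul_inv_self odd_conj comm_of_inv
  mul_inv_self' comm_pow comm_inv conj_comm comm_conj)
open Pool.Agent.FourGp.H99 (LF)
open Pool.Agent.FourGp.FF.Abo
open Pool.Agent.FourGp.FF.Pq (TA mem_TA)
open Pool.Agent.FourGp.FF.Bs (MinC Min0 HerS CkS CmsS)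
open Pool.Agent.FourGp.FF.Fi (cjg Tm AT Fam)

theorem hdz (hH : HerS.{u}) (h1 : TrvS.{u}) (h2 : NneS.{u}) (h4 : P2S.{u}) (h9 : ChdS.{u}) :
    HdzS.{u} := by
  intro G _ K a b c m t x hx hbx
  have h := m.fr
  have hax : fi (Cz K a) x := mi_fi' h m.fin hx
  have hxa : a * x * a = x := cj_fix h.aa (mem_Cz.1 hx.1).2
  have hxK : x ∈ K := (mem_Cz.1 hx.1).1
  by_cases hF : ∀ f ∈ Fx K a b, f * x = x * f
  · -- `F` centralises `x`
    obtain ⟨g, hg, hg1, -, hgc⟩ := h2 G K a b c m
    have hg' : g ∈ Fx K c a := by rw [fx_ca h]; exact hg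
    have hcx : fi (Cz K c) x :=
      h9 G K c a b (minC_rot2 m) (at_rot2 t) g hg' hgc hg1 x ((mi_c h).1 hx) (hF g hg).symm
    exact h1 G K a b c m t x hxK (Or.inl hxa) (Or.inr hx.2) hax hbx hcx
  · exfalso
    push Not at hF
    obtain ⟨f0, hf0, hf0x⟩ := hF
    set X : Set G := (fun f => f⁻¹ * x * f) '' (Fx K a b : Set G) with hXdef
    have hXfin : X.Finite := m.fin.image _
    have hXmi : ∀ y ∈ X, Mi K a b y := by
      rintro _ ⟨f, hf, rfl⟩
      exact mi_conj h hf hx
    have hxX : x ∈ X := ⟨1, (Fx K a b).one_mem, by simp⟩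
    have hXfb : ∀ y ∈ X, fi (Cz K b) y := by
      rintro _ ⟨f, hf, rfl⟩
      exact fi_fx (fx_czb hf) hbx
    have hLK : (K ⊓ Subgroup.centralizer X : Subgroup G) ≤ K := inf_le_left
    have hVI : VInv a b (K ⊓ Subgroup.centralizer X : Subgroup G) := by
      constructor
      · intro u hu
        obtain ⟨hu1, hu2⟩ := Subgroup.mem_inf.1 hu
        refine Subgroup.mem_inf.2 ⟨h.cjmem h.aa hu1, ?_⟩
        rw [Subgroup.mem_centralizer_iff] at hu2 ⊢
        intro y hy
        have c1 : Commute y a := (mem_Cz.1 (hXmi y hy).1).2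
        have c2 : Commute y u := hu2 y hy
        exact (c1.mul_right c2).mul_right c1
      · intro u hu
        obtain ⟨hu1, hu2⟩ := Subgroup.mem_inf.1 hu
        refine Subgroup.mem_inf.2 ⟨h.cjmem h.bb hu1, ?_⟩
        rw [Subgroup.mem_centralizer_iff] at hu2 ⊢
        intro y hy
        have e1 : b * y * b = y⁻¹ := (hXmi y hy).2
        have e2 : y⁻¹ * u = u * y⁻¹ := by
          have c2 : Commute y u := hu2 y hy
          exact c2.inv_left
        have e3 : y * b = b * y⁻¹ := by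
          rw [← e1]
          calc y * b = (b * b) * (y * b) := by rw [h.bb, one_mul]
            _ = b * (b * y * b) := by group
        have e4 : y⁻¹ * b = b * y := by
          calc y⁻¹ * b = (b * y * b) * b := by rw [e1]
            _ = b * y * (b * b) := by group
            _ = b * y := by rw [h.bb, mul_one]
        calc y * (b * u * b) = (y * b) * u * b := by group
          _ = b * (y⁻¹ * u) * b := by rw [e3]; group
          _ = b * u * (y⁻¹ * b) := by rw [e2]; group
          _ = b * u * b * y := by rw [e4]; group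
    have hinv : ∀ f ∈ Fx K a b, ∀ g ∈ (K ⊓ Subgroup.centralizer X : Subgroup G),
        f⁻¹ * g * f ∈ (K ⊓ Subgroup.centralizer X : Subgroup G) := by
      intro f hf g hg
      refine Subgroup.mem_inf.2 ⟨?_, ?_⟩
      · exact K.mul_mem (K.mul_mem (K.inv_mem (mem_Fx.1 hf).1) (Subgroup.mem_inf.1 hg).1)
          (mem_Fx.1 hf).1
      · have hg2 := (Subgroup.mem_inf.1 hg).2
        rw [Subgroup.mem_centralizer_iff] at hg2 ⊢
        rintro _ ⟨f', hf', rfl⟩
        have hmem : f * (f'⁻¹ * x * f') * f⁻¹ ∈ X := by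
          refine ⟨f' * f⁻¹, (Fx K a b).mul_mem hf' ((Fx K a b).inv_mem hf), ?_⟩
          change (f' * f⁻¹)⁻¹ * x * (f' * f⁻¹) = f * (f'⁻¹ * x * f') * f⁻¹
          group
        have e := hg2 _ hmem
        change (f'⁻¹ * x * f') * (f⁻¹ * g * f) = (f⁻¹ * g * f) * (f'⁻¹ * x * f')
        calc (f'⁻¹ * x * f') * (f⁻¹ * g * f)
            = f⁻¹ * ((f * (f'⁻¹ * x * f') * f⁻¹) * g) * f := by group
          _ = f⁻¹ * (g * (f * (f'⁻¹ * x * f') * f⁻¹)) * f := by rw [e]
          _ = (f⁻¹ * g * f) * (f'⁻¹ * x * f') := by group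
    have hnF : ¬ Fx K a b ≤ (K ⊓ Subgroup.centralizer X : Subgroup G) := by
      intro hle
      apply hf0x
      have := (Subgroup.mem_inf.1 (hle hf0)).2
      rw [Subgroup.mem_centralizer_iff] at this
      exact (this x hxX).symm
    have hLF : LF (K ⊓ Subgroup.centralizer X : Subgroup G) :=
      (hH G K a b c m.toMin0).1 _ hLK hVI hnF
    have hTL : TA K a b ≤ (K ⊓ Subgroup.centralizer X : Subgroup G) := by
      intro s hs
      refine Subgroup.mem_inf.2 ⟨ta_leK h hs, ?_⟩
      rw [Subgroup.mem_centralizer_iff]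
      intro y hy
      exact (ta_mi_comm h hs (hXmi y hy)).symm
    have hra : (K ⊓ Subgroup.centralizer X : Subgroup G).relIndex (Cz K a) ≠ 0 :=
      ind_mono (ta_ind h t.ta) hTL
    have hrb : (K ⊓ Subgroup.centralizer X : Subgroup G).relIndex (Cz K b) ≠ 0 := by
      refine inf_ind ?_ (Fct.cent_ne hXfin hXfb)
      rw [Subgroup.relIndex_eq_one.2 (cz_le : Cz K b ≤ K)]
      exact one_ne_zero
    exact h4 G K a b c m t _ hLK hVI hLF (fun f hf _ g hg => hinv f hf g hg) hra hrb

end Pool.Agent.FourGp.FF.Fp
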