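import Pool.Agent.Lib.MP_fb3619_al.BS.Iface

/-!
# MP_fb3619_al, board FPF: all types tame; the groups `F_v` act fixed point freely on the other
two types. Statements of the rows. Paper: `FP/Paper.md` (finding 4575 of helper69, steps 1 to 5;
equivalent to findings 4554, 4555, 4556).

`F_v = {f ∈ Fx K a b | fi (Cz K v) f}`, `T_a = TA K a b`, `T_b = TA K b a`, `T_c = TA K c a`.
-/

set_option autoImplicit false

universe u

namespace Pool.Agent.FourGp.FF.Fp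

open Pool.Agent.FourGp.H47 (Odd' inv_of_sq conj_inv_pow mul_inv_self odd_conj comm_of_inv
  mul_inv_self' comm_pow comm_inv conj_comm comm_conj)
open Pool.Agent.FourGp.H99 (LF)
open Pool.Agent.FourGp.FF.Abo
open Pool.Agent.FourGp.FF.Pq (TA mem_TA)
open Pool.Agent.FourGp.FF.Bs (MinC Min0 HerS CkS CmsS)
open Pool.Agent.FourGp.FF.Fi (cjg Tm AT Fam)

/-! ### Input from other boards -/

/-- LEMMA Y (input, board RG). `W` locally finite, the four-group fixed point free on `W`, big type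
`a`; `e ∈ F` centralises a subgroup of finite index of `C_W(c)`. Then `e` centralises a subgroup of
finite index of `C_W(b)`, and `[x, e] ∈ HD(C_W(b)) ∩ HD(C_W(c))` for `x ∈ C_W(a)`. -/
def YlS : Prop := ∀ (G : Type u) [Group G] (K : Subgroup G) (a b c : G), Fr K a b c →
  ∀ W : Subgroup G, W ≤ K → VInv a b W → LF W → (∀ f ∈ W, f ∈ Fx K a b → f = 1) →
  {x | x ∈ W ∧ x ∈ Cz K b ∧ fi (W ⊓ Cz K a) x}.Finite →
  {x | x ∈ W ∧ x ∈ Cz K c ∧ fi (W ⊓ Cz K a) x}.Finite →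
  ∀ e ∈ Fx K a b, (∀ w ∈ W, e⁻¹ * w * e ∈ W) → fi (W ⊓ Cz K c) e →
  fi (W ⊓ Cz K b) e ∧ ∀ x ∈ W, x ∈ Cz K a →
    fi (W ⊓ Cz K b) (x⁻¹ * (e⁻¹ * x * e)) ∧ fi (W ⊓ Cz K c) (x⁻¹ * (e⁻¹ * x * e))

/-- FLATNESS (input, helper28). -/
def FlatS : Prop := ∀ (G : Type u) [Group G] (K : Subgroup G) (a b c : G), Fr K a b c →
  (Fx K a b : Set G).Finite → ∀ Sa Sb Sc : Subgroup G, Sa ≤ TA K a b → Sb ≤ TA K b a →
  Sc ≤ TA K c a → LF (Sa ⊔ Sb ⊔ Sc : Subgroup G) →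
  (∀ f ∈ Sa ⊔ Sb ⊔ Sc, f ∈ Fx K a b → (∀ s ∈ Sa, f⁻¹ * s * f ∈ Sa) ∧
    (∀ s ∈ Sb, f⁻¹ * s * f ∈ Sb) ∧ ∀ s ∈ Sc, f⁻¹ * s * f ∈ Sc) →
  ∀ f ∈ Sa ⊔ Sb ⊔ Sc, f ∈ Fx K a b → f = 1

/-! ### Rows -/

/-- TRV (paper 1): `HD_a ∩ HD_b ∩ HD_c` contains no element `≠ 1` which is fixed or inverted by
`a` and by `b`. -/
def TrvS : Prop := ∀ (G : Type u) [Group G] (K : Subgroup G) (a b c : G), MinC K a b c →
  AT K a b c → ∀ x ∈ K, (a * x * a = x ∨ a * x * a = x⁻¹) → (b * x * b = x ∨ b * x * b = x⁻¹) →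
  fi (Cz K a) x → fi (Cz K b) x → fi (Cz K c) x → x = 1

/-- NNE (paper 2): `N_c ≠ 1`, and `N_c ≤ F_c`. -/
def NneS : Prop := ∀ (G : Type u) [Group G] (K : Subgroup G) (a b c : G), MinC K a b c →
  ∃ f ∈ Fx K a b, f ≠ 1 ∧ f ∈ Subgroup.closure {u | Mi K c a u} ∧ fi (Cz K c) f

/-- HDF (paper 3): `C_K(b) ∩ HD_a` is finite and meets `T_b` trivially. -/
def HdfS : Prop := ∀ (G : Type u) [Group G] (K : Subgroup G) (a b c : G), MinC K a b c →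
  AT K a b c → (∀ t ∈ TA K b a, fi (Cz K a) t → t = 1) ∧
  {x | x ∈ Cz K b ∧ fi (Cz K a) x}.Finite

/-- P2 (paper 4): an invariant locally finite subgroup cannot have finite index in two types. -/
def P2S : Prop := ∀ (G : Type u) [Group G] (K : Subgroup G) (a b c : G), MinC K a b c →
  AT K a b c → ∀ L : Subgroup G, L ≤ K → VInv a b L → LF L →
  (∀ f ∈ Fx K a b, fi (Cz K c) f → ∀ g ∈ L, f⁻¹ * g * f ∈ L) →
  L.relIndex (Cz K a) ≠ 0 → L.relIndex (Cz K b) ≠ 0 → False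

/-- PFF (paper 5): `F_a ∩ F_b = 1`, so `F_a` and `F_b` commute. -/
def PffS : Prop := ∀ (G : Type u) [Group G] (K : Subgroup G) (a b c : G), MinC K a b c →
  AT K a b c → (∀ f ∈ Fx K a b, fi (Cz K a) f → fi (Cz K b) f → f = 1) ∧
  ∀ f ∈ Fx K a b, fi (Cz K a) f → ∀ g ∈ Fx K a b, fi (Cz K b) g → f * g = g * f

/-- Y2 (paper 6): Lemma Y inside `C_K(E)`, `1 ≠ E ≤ F_a`. -/
def Y2S : Prop := ∀ (G : Type u) [Group G] (K : Subgroup G) (a b c : G), MinC K a b c →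
  AT K a b c → ∀ E : Subgroup G, E ≤ Fx K a b → (∀ e ∈ E, fi (Cz K a) e) → E ≠ ⊥ →
  (∀ f ∈ Fx K a b, fi (Cz K c) f → fi (TA K b a ⊓ Subgroup.centralizer (E : Set G)) f) ∧
  ∀ t ∈ TA K a b, (∀ f ∈ Fx K a b, fi (Cz K a) f → f * t = t * f) →
    ∀ f ∈ Fx K a b, fi (Cz K b) f ∨ fi (Cz K c) f →
      fi (TA K b a ⊓ Subgroup.centralizer (E : Set G)) (t⁻¹ * (f⁻¹ * t * f))

/-- SFI (paper 7): `C_K(F_a F_b F_c)` is finite. -/
def SfiS : Prop := ∀ (G : Type u) [Group G] (K : Subgroup G) (a b c : G), MinC K a b c →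
  AT K a b c → {x | x ∈ K ∧ ∀ f ∈ Fx K a b,
    fi (Cz K a) f ∨ fi (Cz K b) f ∨ fi (Cz K c) f → f * x = x * f}.Finite

/-- CFI (paper 8): `1 ≠ e ∈ F_a`: `C(e) ∩ C_K(b)` is finite. -/
def CfiS : Prop := ∀ (G : Type u) [Group G] (K : Subgroup G) (a b c : G), MinC K a b c →
  AT K a b c → ∀ e ∈ Fx K a b, fi (Cz K a) e → e ≠ 1 →
  {x | x ∈ Cz K b ∧ x * e = e * x}.Finite

/-- CHD (paper 9): `1 ≠ e ∈ F_a`: `C(e) ∩ D_b⁻ ⊆ HD_a`. -/
def ChdS : Prop := ∀ (G : Type u) [Group G] (K : Subgroup G) (a b c : G), MinC K a b c →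
  AT K a b c → ∀ e ∈ Fx K a b, fi (Cz K a) e → e ≠ 1 →
  ∀ y, Mi K b a y → y * e = e * y → fi (Cz K a) y

/-- HDZ (paper 10): `D_a⁻ ∩ HD_b = 1`. -/
def HdzS : Prop := ∀ (G : Type u) [Group G] (K : Subgroup G) (a b c : G), MinC K a b c →
  AT K a b c → ∀ x, Mi K a b x → fi (Cz K b) x → x = 1

/-- FPF (paper 11): the theorem. -/
def FpfS : Prop := ∀ (G : Type u) [Group G] (K : Subgroup G) (a b c : G), MinC K a b c →
  AT K a b c →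
  (∀ f ∈ Fx K a b, fi (Cz K a) f → ∀ g ∈ Fx K a b, fi (Cz K b) g → f * g = g * f) ∧
  (∀ f ∈ Fx K a b, fi (Cz K a) f → fi (Cz K b) f → f = 1) ∧
  ∀ e ∈ Fx K a b, fi (Cz K a) e → e ≠ 1 →
    (∀ y, Mi K b a y → y * e = e * y → y = 1) ∧ (∀ y, Mi K c a y → y * e = e * y → y = 1) ∧
    ∀ k ∈ K, k * e = e * k → k ∈ Cz K a

end Pool.Agent.FourGp.FF.Fp
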