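import Pool.Agent.Lib.MP_fb3619_al.FP.Iface

/-!
# MP_fb3619_al, board FPF, part 2: all types tame; isolation, and no homologies. Paper:
`FP/Paper2.md`.
-/

set_option autoImplicit false

universe u

namespace Pool.Agent.FourGp.FF.Fp

open Pool.Agent.FourGp.H47 (Odd' inv_of_sq conj_inv_pow mul_inv_self odd_conj comm_of_inv
  mul_inv_self' comm_pow comm_inv conj_comm comm_conj)
open Pool.Agent.FourGp.H99 (LF)
open Pool.Agent.FourGp.FF.Abo
open Pool.Agent.FourGp.FF.Pq (TA mem_TA)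
open Pool.Agent.FourGp.FF.Bs (MinC Min0 HerS CkS CmsS)
open Pool.Agent.FourGp.FF.Fi (cjg Tm AT Fam)

/-- LMV (paper 12, Lemma V of finding 4520): if the `c`-components of the `m^s`, `m ∈ M`, take
finitely many values, then `s` centralises a subgroup of finite index of `M`. -/
def LmvS : Prop := ∀ (G : Type u) [Group G] (K : Subgroup G) (a b c : G), Fr K a b c →
  ∀ (M : Subgroup G) (s : G), Mi K a b s → (∀ m ∈ M, Mi K b a m) → ∀ R : Set G, R.Finite →
  (∀ m ∈ M, ∃ w w0 : G, w ∈ R ∧ w ∈ Cz K c ∧ w0 ∈ K ∧ c * w0 * c = w0⁻¹ ∧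
    s⁻¹ * m * s = w * w0) → fi M s

/-- ISO (paper 13): isolation. -/
def IsolS : Prop := ∀ (G : Type u) [Group G] (K : Subgroup G) (a b c : G), MinC K a b c →
  AT K a b c → ∀ k, Mi K b a k → k ≠ 1 → ∀ x ∈ K, x * k = k * x → x ∈ Cz K b

/-- PV1 (paper 14): no homologies. -/
def Pv1S : Prop := ∀ (G : Type u) [Group G] (K : Subgroup G) (a b c : G), MinC K a b c →
  AT K a b c → ∀ f ∈ Fx K a b, (∀ u, Mi K a b u → f * u = u * f) → f = 1

/-- The tame case. -/
def TameS : Prop := ∀ (G : Type u) [Group G] (K : Subgroup G) (a b c : G), MinC K a b c →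
  ¬ AT K a b c

end Pool.Agent.FourGp.FF.Fp
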