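import Pool.Agent.Lib.MP_fb3619_al.FP.Base
import Pool.Agent.Lib.MP_fb3619_al.FP.Iface2

/-!
# MP_fb3619_al, board FPF, row ISO (paper 13): isolation
-/

set_option autoImplicit false

universe u

namespace Pool.Agent.FourGp.FF.Fp

open Pool.Agent.FourGp.H47 (Odd' inv_of_sq conj_inv_pow mul_inv_self odd_conj comm_of_inv
  mul_inv_self' comm_pow comm_inv conj_comm comm_conj)
open Pool.Agent.FourGp.H99 (LF)
open Pool.Agent.FourGp.FF.Abo
open Pool.Agent.FourGp.FF.Pq (TA mem_TA)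
open Pool.Agent.FourGp.FF.Bs (MinC Min0 HerS CkS CmsS)
open Pool.Agent.FourGp.FF.Fi (cjg Tm AT Fam)

namespace Iso

variable {G : Type u} [Group G] {K : Subgroup G} {a b c : G}

/-- A group in which a trivial subgroup has finite index is finite. -/
theorem fin_of {H D : Subgroup G} (h : H.relIndex D ≠ 0) (h1 : ∀ x ∈ D, x ∈ H → x = 1) :
    (D : Set G).Finite := by
  have e : H ⊓ D = ⊥ := by
    rw [eq_bot_iff]
    rintro x ⟨hx1, hx2⟩
    exact Subgroup.mem_bot.2 (h1 x hx2 hx1)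
  have h2 : (H ⊓ D).relIndex D ≠ 0 := by rwa [Subgroup.inf_relIndex_right]
  rw [e, Subgroup.relIndex_bot_left] at h2
  have : Finite D := Nat.finite_of_card_ne_zero h2
  exact Set.toFinite _

/-- The elements `k^f`, `f ∈ F_a`. -/
def X (K : Subgroup G) (a b k : G) : Set G :=
  {x | ∃ f ∈ Fx K a b, fi (Cz K a) f ∧ x = f⁻¹ * k * f}

theorem x_mi (h : Fr K a b c) {k : G} (hk : Mi K b a k) {x : G} (hx : x ∈ X K a b k) :
    Mi K b a x := by
  obtain ⟨f, hf, -, rfl⟩ := hx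
  exact mi_conj h.swap (by rw [Fr.fx_swap]; exact hf) hk

/-- The centralizer of elements of `D_b⁻`. -/
theorem cent_vinv (h : Fr K a b c) {Y : Set G} (hY : ∀ x ∈ Y, Mi K b a x) :
    VInv a b (K ⊓ Subgroup.centralizer Y : Subgroup G) := by
  constructor
  · intro u hu
    obtain ⟨h1, h2⟩ := Subgroup.mem_inf.1 hu
    refine Subgroup.mem_inf.2 ⟨h.cjmem h.aa h1, ?_⟩
    rw [Subgroup.mem_centralizer_iff] at h2 ⊢
    intro x hx
    have e1 : a * x * a = x⁻¹ := (hY x hx).2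
    have e2 : a * x⁻¹ * a = x := by rw [cj_inv h.aa, e1, inv_inv]
    have c1 : Commute x u := h2 x hx
    have e3 : x⁻¹ * u = u * x⁻¹ := c1.inv_left.eq
    calc x * (a * u * a) = (a * x⁻¹ * a) * (a * u * a) := by rw [e2]
      _ = a * (x⁻¹ * u) * a := by rw [cj_mul h.aa]
      _ = a * (u * x⁻¹) * a := by rw [e3]
      _ = (a * u * a) * (a * x⁻¹ * a) := by rw [cj_mul h.aa]
      _ = (a * u * a) * x := by rw [e2]
  · intro u hu
    obtain ⟨h1, h2⟩ := Subgroup.mem_inf.1 hu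
    refine Subgroup.mem_inf.2 ⟨h.cjmem h.bb h1, ?_⟩
    rw [Subgroup.mem_centralizer_iff] at h2 ⊢
    intro x hx
    have c1 : Commute x u := h2 x hx
    have c2 : Commute x b := (mem_Cz.1 (hY x hx).1).2
    exact ((c2.mul_right c1).mul_right c2).eq

/-- The elements of `F_a` permute the set `X`. -/
theorem x_conj {k : G} {e : G} (he : e ∈ Fx K a b) (hfe : fi (Cz K a) e) {x : G}
    (hx : x ∈ X K a b k) : e * x * e⁻¹ ∈ X K a b k := by
  obtain ⟨f, hf, hff, rfl⟩ := hx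
  refine ⟨f * e⁻¹, (Fx K a b).mul_mem hf ((Fx K a b).inv_mem he), ?_, by group⟩
  exact (HD (Cz K a)).mul_mem hff ((HD (Cz K a)).inv_mem hfe)

theorem ta_inf {L T : Subgroup G} (hL : VInv a b L) (hT : VInv a b T) : VInv a b (L ⊓ T) :=
  ⟨fun u hu => ⟨hL.1 u hu.1, hT.1 u hu.2⟩, fun u hu => ⟨hL.2 u hu.1, hT.2 u hu.2⟩⟩

/-- Elements with components in a finite set. -/
theorem use_lmv (h12 : LmvS.{u}) (h : Fr K a b c) {D T : Subgroup G} (hDK : D ≤ K)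
    (hDV : VInv a b D) (hT : ∀ m ∈ T, Mi K b a m) (hTD : T ≤ D) {s : G} (hs : Mi K a b s)
    (hsD : s ∈ D) (hfin : ((D ⊓ Cz K c : Subgroup G) : Set G).Finite) : fi T s := by
  refine h12 G K a b c h T s hs hT ((D ⊓ Cz K c : Subgroup G) : Set G) hfin ?_
  intro m hm
  have hu : s⁻¹ * m * s ∈ D := D.mul_mem (D.mul_mem (D.inv_mem hsD) (hTD hm)) hsD
  obtain ⟨w, s0, hw, hs0, e, h1, h2⟩ := h.dec hDK h.cc (Fi.inv_third h hDV) hu
  have hwc : w ∈ Cz K c := mem_Cz.2 ⟨hDK hw, h1⟩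
  exact ⟨w, s0, Subgroup.mem_inf.2 ⟨hw, hwc⟩, hwc, hDK hs0, h2, e⟩

/-- Step (i) of the paper. -/
theorem step1 (hY : YlS.{u}) (hFl : FlatS.{u}) (hC : CkS.{u}) (h2 : NneS.{u}) (h3 : HdfS.{u})
    (h11 : FpfS.{u}) (h12 : LmvS.{u}) (m : MinC K a b c) (t : AT K a b c) {k : G}
    (hk : Mi K b a k) (hk1 : k ≠ 1) {τ : G} (hτ : τ ∈ TP K a b) (hτk : τ * k = k * τ) :
    τ = 1 := by
  have h := m.fr
  have hF := m.fin
  -- an element of `F_a`
  obtain ⟨e, he, he1, -, hef⟩ := h2 G K b c a (minC_rot m)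
  rw [h.fx_rot] at he
  obtain ⟨hp1, hp2, -⟩ := (h11 G K a b c m t).2.2 e he hef he1
  -- `X` and `L`
  have hkX : k ∈ X K a b k := ⟨1, (Fx K a b).one_mem, (HD (Cz K a)).one_mem, by group⟩
  have hXM : ∀ x ∈ X K a b k, Mi K b a x := fun x hx => x_mi h hk hx
  set L : Subgroup G := K ⊓ Subgroup.centralizer (X K a b k) with hL
  have hLK : L ≤ K := inf_le_left
  have hLV : VInv a b L := cent_vinv h hXM
  have hLLF : LF L := by
    have h1 := (hC G K a b c m.toMin0).2.1 k (Or.inr hk.2)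
      (Or.inl (cj_fix h.bb (mem_Cz.1 hk.1).2))
      ⟨e, he, fun e1 => hk1 (hp1 k hk e1.symm)⟩
    refine LF_mono ?_ h1
    intro x hx
    obtain ⟨hx1, hx2⟩ := Subgroup.mem_inf.1 hx
    refine Subgroup.mem_inf.2 ⟨hx1, Subgroup.mem_centralizer_singleton_iff.2 ?_⟩
    exact (Subgroup.mem_centralizer_iff.1 hx2 k hkX).symm
  have hTbL : TA K b a ≤ L := by
    intro s hs
    refine Subgroup.mem_inf.2 ⟨ta_leK h.swap hs, Subgroup.mem_centralizer_iff.2 fun x hx => ?_⟩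
    exact (ta_mi_comm h.swap hs (hXM x hx)).symm
  have hτL : τ ∈ L := by
    refine Subgroup.mem_inf.2 ⟨ta_leK h (mem_TP.1 hτ).1, Subgroup.mem_centralizer_iff.2 ?_⟩
    rintro x ⟨f, hf, hff, rfl⟩
    have c1 : Commute f τ := (mem_TP.1 hτ).2 f hf hff
    have c2 : Commute k τ := hτk.symm
    exact (c1.inv_left.mul_left c2).mul_left c1
  -- `W`
  set W : Subgroup G := (L ⊓ TP K a b) ⊔ TA K b a ⊔ (L ⊓ TA K c a) with hW
  have hWL : W ≤ L := sup_le (sup_le inf_le_left hTbL) inf_le_left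
  have hWK : W ≤ K := hWL.trans hLK
  have hTaV : VInv a b (TP K a b) := tp_inv h
  have hTbV : VInv a b (TA K b a) := (ta_inv h.swap).swap
  have hTcV : VInv a b (TA K c a) := (ta_inv h.rot.rot).rot h.rot.rot
  have hWV : VInv a b W := sup_inv h (sup_inv h (ta_inf hLV hTaV) hTbV) (ta_inf hLV hTcV)
  have hWLF : LF W := LF_mono hWL hLLF
  have parts : ∀ f ∈ Fx K a b, (∀ g ∈ L, f⁻¹ * g * f ∈ L) →
      (∀ s ∈ L ⊓ TP K a b, f⁻¹ * s * f ∈ L ⊓ TP K a b) ∧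
      (∀ s ∈ TA K b a, f⁻¹ * s * f ∈ TA K b a) ∧
      ∀ s ∈ L ⊓ TA K c a, f⁻¹ * s * f ∈ L ⊓ TA K c a := by
    intro f hf hfL
    have hfb : f ∈ Fx K b a := by rw [Fr.fx_swap]; exact hf
    have hfc : f ∈ Fx K c a := by rw [fx_ca h]; exact hf
    exact ⟨fun s hs => ⟨hfL s hs.1, tp_fx h hf hs.2⟩, fun s hs => ta_fx h.swap hfb hs,
      fun s hs => ⟨hfL s hs.1, ta_fx h.rot.rot hfc hs.2⟩⟩
  have hWF : ∀ f ∈ W, f ∈ Fx K a b → f = 1 := by
    refine hFl G K a b c h hF (L ⊓ TP K a b) (TA K b a) (L ⊓ TA K c a)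
      (inf_le_right.trans fun x hx => (mem_TP.1 hx).1) le_rfl inf_le_right hWLF ?_
    intro f hf hfF
    exact parts f hfF fun g hg => L.mul_mem (L.mul_mem (L.inv_mem (hWL hf)) hg) (hWL hf)
  have heL : ∀ g ∈ L, e⁻¹ * g * e ∈ L := fun g hg =>
    cent_conj h (fun x hx => x_conj he hef hx) hg
  have heW : ∀ w ∈ W, e⁻¹ * w * e ∈ W := by
    obtain ⟨q1, q2, q3⟩ := parts e he heL
    exact sup_conj (sup_conj q1 q2) q3
  have hWb : W.relIndex (Cz K b) ≠ 0 :=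
    ind_mono (ta_ind h.swap t.swap.ta) (le_sup_right.trans le_sup_left)
  -- Lemma Y for the frame `(b, c, a)`
  have hy := (hY G K b c a h.rot W hWK (hWV.rot h) hWLF
    (fun f hf hfF => hWF f hf (by rw [h.fx_rot] at hfF; exact hfF))
    ((h3 G K b c a (minC_rot m) t.rot).2.subset fun x hx => ⟨hx.2.1, fi_up hWb hx.2.2⟩)
    ((h3 G K b a c (minC_swap m) t.swap).2.subset fun x hx => ⟨hx.2.1, fi_up hWb hx.2.2⟩)
    e (by rw [h.fx_rot]; exact he) heW (Fct.fi_mono hef inf_le_right)).1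
  -- `W ⊓ D_c` is finite
  have hWc : ((W ⊓ Cz K c : Subgroup G) : Set G).Finite := by
    refine fin_of hy ?_
    rintro x ⟨hxW, hxc⟩ hxe
    have hxe' : x * e = e * x := Subgroup.mem_centralizer_singleton_iff.1 hxe
    -- `x` is inverted by `a`
    have hinv : ∀ u ∈ W ⊓ Cz K c, a * u * a ∈ W ⊓ Cz K c := by
      intro u hu
      exact ⟨hWV.1 u hu.1, h.cz_inv h.aa h.cac hu.2⟩
    obtain ⟨w, s, hw, hs, e1, e2, e3⟩ := h.dec (X := W ⊓ Cz K c) (inf_le_left.trans hWK) h.aa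
      hinv (show x ∈ W ⊓ Cz K c from ⟨hxW, hxc⟩)
    have hwF : w ∈ Fx K a b := h.mem_F (hWK hw.1) e2 (mem_Cz.1 hw.2).2
    have hw1 : w = 1 := hWF w hw.1 hwF
    rw [hw1, one_mul] at e1
    rw [← e1] at e3
    exact hp2 x ⟨hxc, e3⟩ hxe'
  -- Lemma V
  have h5 : fi (TA K b a) τ := use_lmv h12 h hWK hWV (fun m' hm' => ta_mi h.swap hm')
    (le_sup_right.trans le_sup_left) (ta_mi h (mem_TP.1 hτ).1)
    ((le_sup_left.trans le_sup_left : L ⊓ TP K a b ≤ W) ⟨hτL, hτ⟩) hWc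
  have h6 : fi (Cz K b) τ :=
    Subgroup.relIndex_ne_zero_trans h5 (ta_ind h.swap t.swap.ta)
  exact (h3 G K b a c (minC_swap m) t.swap).1 τ (mem_TP.1 hτ).1 h6

/-- Step (ii): `C_K(k) ⊓ D_a` is finite. -/
theorem step2 (hY : YlS.{u}) (hFl : FlatS.{u}) (hC : CkS.{u}) (h2 : NneS.{u}) (h3 : HdfS.{u})
    (h11 : FpfS.{u}) (h12 : LmvS.{u}) (m : MinC K a b c) (t : AT K a b c) {k : G}
    (hk : Mi K b a k) (hk1 : k ≠ 1) :
    (((K ⊓ Subgroup.centralizer {k}) ⊓ Cz K a : Subgroup G) : Set G).Finite := by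
  have h := m.fr
  have h4 : (TP K a b).relIndex ((K ⊓ Subgroup.centralizer {k}) ⊓ Cz K a : Subgroup G) ≠ 0 :=
    fun h0 => tp_ind h m.fin t.ta (Subgroup.relIndex_eq_zero_of_le_right inf_le_right h0)
  refine fin_of h4 ?_
  rintro x ⟨⟨-, hx2⟩, -⟩ hx
  exact step1 hY hFl hC h2 h3 h11 h12 m t hk hk1 hx
    (Subgroup.mem_centralizer_singleton_iff.1 hx2)

/-- Step (iii). -/
theorem step3 (h10 : HdzS.{u}) (h12 : LmvS.{u}) (m : MinC K a b c) (t : AT K a b c) {k : G}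
    (hk : Mi K b a k)
    (hfin : (((K ⊓ Subgroup.centralizer {k}) ⊓ Cz K c : Subgroup G) : Set G).Finite) {s : G}
    (hs : Mi K a b s) (hsk : s * k = k * s) : s = 1 := by
  have h := m.fr
  set J : Subgroup G := K ⊓ Subgroup.centralizer {k} with hJ
  have hJV : VInv a b J := cent_vinv h (by
    rintro x hx
    rw [Set.mem_singleton_iff] at hx
    rw [hx]; exact hk)
  have hTJ : TA K b a ≤ J := fun s hs => Subgroup.mem_inf.2 ⟨ta_leK h.swap hs,
    Subgroup.mem_centralizer_singleton_iff.2 (ta_mi_comm h.swap hs hk)⟩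
  have hsJ : s ∈ J := Subgroup.mem_inf.2 ⟨(mem_Cz.1 hs.1).1,
    Subgroup.mem_centralizer_singleton_iff.2 hsk⟩
  have h5 : fi (TA K b a) s := use_lmv h12 h inf_le_left hJV
    (fun m' hm' => ta_mi h.swap hm') hTJ hs hsJ hfin
  have h6 : fi (Cz K b) s :=
    Subgroup.relIndex_ne_zero_trans h5 (ta_ind h.swap t.swap.ta)
  exact h10 G K a b c m t s hs h6

end Iso

open Iso in
/-- ISO. -/
theorem isol (hY : YlS.{u}) (hFl : FlatS.{u}) (hC : CkS.{u}) (h2 : NneS.{u}) (h3 : HdfS.{u})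
    (h10 : HdzS.{u}) (h11 : FpfS.{u}) (h12 : LmvS.{u}) : IsolS.{u} := by
  intro G _ K a b c m t k hk hk1 x hx hxk
  have h := m.fr
  have hkc : Mi K b c k := (mi_c h.swap).1 hk
  have m' := minC_rev m
  have t' := at_rev t
  have fa := step2 hY hFl hC h2 h3 h11 h12 m t hk hk1
  have fc := step2 hY hFl hC h2 h3 h11 h12 m' t' hkc hk1
  set J : Subgroup G := K ⊓ Subgroup.centralizer {k} with hJ
  have hJV : VInv a b J := cent_vinv h (by
    rintro x hx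
    rw [Set.mem_singleton_iff] at hx
    rw [hx]; exact hk)
  have hxJ : x ∈ J := Subgroup.mem_inf.2 ⟨hx, Subgroup.mem_centralizer_singleton_iff.2 hxk⟩
  have hJV' := hJV.rot h
  obtain ⟨α, β, γ, hα, hβ, hγ, e, e1, e2, e3, e4, e5⟩ := h.rot.fac (X := J) inf_le_left
    hJV'.1 hJV'.2 hxJ
  have hβ1 : β = 1 := by
    have hm : Mi K c b β := ⟨mem_Cz.2 ⟨hβ.1, e2⟩, e3⟩
    exact step3 h10 h12 m' t' hkc fa hm (Subgroup.mem_centralizer_singleton_iff.1 hβ.2)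
  have hγ1 : γ = 1 := by
    have hm : Mi K a b γ := ⟨mem_Cz.2 ⟨hγ.1, e4⟩, e5⟩
    exact step3 h10 h12 m t hk fc hm (Subgroup.mem_centralizer_singleton_iff.1 hγ.2)
  rw [e, hβ1, hγ1, mul_one, mul_one]
  exact mem_Cz.2 ⟨hα.1, e1⟩

end Pool.Agent.FourGp.FF.Fp
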