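import Pool.Agent.Lib.MP_fb3619_al.FP.Iface2
import Pool.Agent.Lib.MP_fb3619_al.FP.Base
import Pool.Agent.Lib.MP_fb3619_al.H4.Aba

/-!
# MP_fb3619_al, board FPF, row LMV (paper 12, Lemma V of finding 4520)
-/

set_option autoImplicit false

universe u

namespace Pool.Agent.FourGp.FF.Fp

open Pool.Agent.FourGp.H47 (Odd' inv_of_sq conj_inv_pow mul_inv_self odd_conj comm_of_inv
  mul_inv_self' comm_pow comm_inv conj_comm comm_conj)
open Pool.Agent.FourGp.H99 (LF)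
open Pool.Agent.FourGp.FF.Abo

variable {G : Type u} [Group G] {K : Subgroup G} {a b c : G}

/-- An element which commutes with the square of an element of odd order commutes with it. -/
theorem lmv_sq {t w : G} (hw : Odd' w) (h : Commute t (w * w)) : Commute t w := by
  obtain ⟨k, hk⟩ := hw.sqrt
  have e : w = (w * w) ^ k := by
    rw [(Commute.refl w).mul_pow, hk]
  have h2 : Commute t ((w * w) ^ k) := h.pow_right k
  rw [← e] at h2
  exact h2

/-- `b w` commutes with `w0`. -/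
theorem lmv_z (h : Fr K a b c) {s m w w0 : G} (hs : Mi K a b s) (hm : Mi K b a m)
    (hw : w ∈ Cz K c) (hw0 : w0 ∈ K) (hc : c * w0 * c = w0⁻¹) (e : s⁻¹ * m * s = w * w0) :
    Commute w0 (b * w) := by
  have haa : a⁻¹ = a := inv_of_sq h.aa
  have hbb : b⁻¹ = b := inv_of_sq h.bb
  have hsa := (mem_Cz.1 hs.1).2
  have hu : a * (s⁻¹ * m * s) * a = (s⁻¹ * m * s)⁻¹ := by
    rw [cj_conj h.aa hsa, hm.2]
    group
  have hwc := (mem_Cz.1 hw).2
  have hwa : a * w * a = w⁻¹ :=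
    comp_inv h.rot.rot (z := a) (k := s⁻¹ * m * s) h.aa h.cac hu hw0 e hwc hc
  have h1 : a * w0 * a = w * w0⁻¹ * w⁻¹ := by
    rw [e] at hu
    calc a * w0 * a = w * (w⁻¹ * (a * w0 * a)) := by group
      _ = w * ((a * w * a) * (a * w0 * a)) := by rw [hwa]
      _ = w * (a * (w * w0) * a) := by rw [cj_mul h.aa]
      _ = w * (w * w0)⁻¹ := by rw [hu]
      _ = _ := by group
  have h2 : a * w0⁻¹ * a = w * w0 * w⁻¹ := by
    calc a * w0⁻¹ * a = (a * w0 * a)⁻¹ := cj_inv h.aa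
      _ = _ := by rw [h1]; group
  have h3 : (b * w) * w0 = w0 * (b * w) := by
    calc (b * w) * w0 = b * (w * w0 * w⁻¹) * w := by group
      _ = b * (a * w0⁻¹ * a) * w := by rw [h2]
      _ = (b * a) * w0⁻¹ * (a * b) * b⁻¹ * w := by group
      _ = c * w0⁻¹ * c * b⁻¹ * w := by rw [h.ba, h.ab]
      _ = (c * w0 * c)⁻¹ * b⁻¹ * w := by rw [cj_inv h.cc]
      _ = w0 * (b * w) := by rw [hc, hbb]; group
  exact h3.symm

/-- Two elements with the same `c`-component differ by an element which commutes with `s`. -/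
theorem lmv_pair (h : Fr K a b c) {s m m' w w0 w0' : G} (hs : Mi K a b s) (hm : Mi K b a m)
    (hm' : Mi K b a m') (hd : Mi K b a (m⁻¹ * m')) (hw : w ∈ Cz K c)
    (hw0 : w0 ∈ K) (hc : c * w0 * c = w0⁻¹) (e : s⁻¹ * m * s = w * w0)
    (hw0' : w0' ∈ K) (hc' : c * w0' * c = w0'⁻¹) (e' : s⁻¹ * m' * s = w * w0') :
    (m⁻¹ * m') * s = s * (m⁻¹ * m') := by
  have hbb : b⁻¹ = b := inv_of_sq h.bb
  have z1 := lmv_z h hs hm hw hw0 hc e
  have z2 := lmv_z h hs hm' hw hw0' hc' e'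
  have z3 : Commute (w0⁻¹ * w0') (b * w) := z1.inv_left.mul_left z2
  have hsK := (mem_Cz.1 hs.1).1
  have hwK := (mem_Cz.1 hw).1
  have hwc := (mem_Cz.1 hw).2
  have hsb := hs.2
  have hsc : c * s * c = s⁻¹ := ((mi_c h).1 hs).2
  have hdc : c * (m⁻¹ * m') * c = (m⁻¹ * m')⁻¹ := ((mi_c h.swap).1 hd).2
  have hdb : Commute (m⁻¹ * m') b := (mem_Cz.1 hd.1).2
  have e1 : s⁻¹ * (m⁻¹ * m') * s = w0⁻¹ * w0' := by
    calc s⁻¹ * (m⁻¹ * m') * s = (s⁻¹ * m * s)⁻¹ * (s⁻¹ * m' * s) := by group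
      _ = w0⁻¹ * w0' := by rw [e, e']; group
  generalize hD : m⁻¹ * m' = d at *
  have z4 : Commute d (s * (b * w) * s⁻¹) := by
    have : d = s * (w0⁻¹ * w0') * s⁻¹ := by rw [← e1]; group
    have z5 : (w0⁻¹ * w0') * (b * w) = (b * w) * (w0⁻¹ * w0') := z3
    show d * (s * (b * w) * s⁻¹) = (s * (b * w) * s⁻¹) * d
    rw [this]
    calc s * (w0⁻¹ * w0') * s⁻¹ * (s * (b * w) * s⁻¹) = s * ((w0⁻¹ * w0') * (b * w)) * s⁻¹ := by
          group
      _ = s * ((b * w) * (w0⁻¹ * w0')) * s⁻¹ := by rw [z5]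
      _ = _ := by group
  have e2 : b * (s * (b * w) * s⁻¹) = s⁻¹ * w * s⁻¹ := by
    calc b * (s * (b * w) * s⁻¹) = (b * s * b) * w * s⁻¹ := by group
      _ = _ := by rw [hsb]
  have z5 : Commute d (s⁻¹ * w * s⁻¹) := by
    rw [← e2]
    exact hdb.mul_right z4
  have hcc : c⁻¹ = c := inv_of_sq h.cc
  have e3 : c * (s⁻¹ * w * s⁻¹) * c = s * w * s := by
    have h1 : c * s⁻¹ * c = s := by rw [cj_inv h.cc, hsc, inv_inv]
    have h2 : c * w * c = w := by
      calc c * w * c = c * (w * c) := by group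
        _ = c * (c * w) := by rw [hwc]
        _ = (c * c) * w := by group
        _ = w := by rw [h.cc, one_mul]
    calc c * (s⁻¹ * w * s⁻¹) * c = (c * s⁻¹ * c) * (c * w * c) * (c * s⁻¹ * c) := by
          rw [cj_mul h.cc, cj_mul h.cc]
      _ = _ := by rw [h1, h2]
  have z6 : Commute (c * d * c) (c * (s⁻¹ * w * s⁻¹) * c) := by
    show (c * d * c) * (c * (s⁻¹ * w * s⁻¹) * c) = (c * (s⁻¹ * w * s⁻¹) * c) * (c * d * c)
    rw [← cj_mul h.cc, ← cj_mul h.cc, z5.eq]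
  rw [hdc, e3] at z6
  have z7 : Commute d (s * w * s) := by
    have := z6.inv_left
    rwa [inv_inv] at this
  have z8 : Commute d ((s * w * s⁻¹) * (s * w * s⁻¹)) := by
    have : (s * w * s⁻¹) * (s * w * s⁻¹) = (s * w * s) * (s⁻¹ * w * s⁻¹) := by group
    rw [this]
    exact z7.mul_right z5
  have z9 : Commute d (s * w * s⁻¹) := by
    refine lmv_sq (h.odd _ ?_) z8
    exact K.mul_mem (K.mul_mem hsK hwK) (K.inv_mem hsK)
  have z10 : Commute d (s * s) := by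
    have : s * s = (s * w * s⁻¹)⁻¹ * (s * w * s) := by group
    rw [this]
    exact z9.inv_right.mul_right z7
  exact lmv_sq (h.odd s hsK) z10

/-- Row LMV. -/
theorem lmv : LmvS.{u} := by
  classical
  intro G _ K a b c h M s hs hM R hR hw
  choose! w w0 h1 h2 h3 h4 h5 using hw
  -- a representative of each value
  have hrep : ∀ v : G, ∃ r : G, (∃ m ∈ M, w m = v) → (r ∈ M ∧ w r = v) := by
    intro v
    by_cases hv : ∃ m ∈ M, w m = v
    · obtain ⟨m, hm, e⟩ := hv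
      exact ⟨m, fun _ => ⟨hm, e⟩⟩
    · exact ⟨1, fun hh => absurd hh hv⟩
  choose r hr using hrep
  refine relIndex_of_cover (r '' R) (hR.image r) ?_
  intro g hg
  refine ⟨r (w g), Set.mem_image_of_mem r (h1 g hg), ?_⟩
  obtain ⟨hrM, hrw⟩ := hr (w g) ⟨g, hg, rfl⟩
  have e1 := h5 _ hrM
  rw [hrw] at e1
  have hdM : (r (w g))⁻¹ * g ∈ M := M.mul_mem (M.inv_mem hrM) hg
  have hp := lmv_pair h hs (hM _ hrM) (hM _ hg) (hM _ hdM) (h2 g hg) (h3 _ hrM) (h4 _ hrM) e1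
    (h3 g hg) (h4 g hg) (h5 g hg)
  have hcm : g * (r (w g))⁻¹ = (r (w g))⁻¹ * g := by
    have i1 := (hM _ hdM).2
    have i2 := (hM _ (M.inv_mem hrM)).2
    have i3 := (hM _ hg).2
    rw [cj_mul h.aa, i2, i3] at i1
    -- `r g⁻¹ = (r⁻¹ g)⁻¹ = g⁻¹ r`
    have i4 : r (w g) * g⁻¹ = g⁻¹ * r (w g) := by
      calc r (w g) * g⁻¹ = ((r (w g))⁻¹)⁻¹ * g⁻¹ := by group
        _ = ((r (w g))⁻¹ * g)⁻¹ := i1
        _ = g⁻¹ * r (w g) := by group
    have i5 : Commute (r (w g)) g⁻¹ := i4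
    have i6 : Commute (r (w g))⁻¹ g := by
      have := i5.inv_inv
      rwa [inv_inv] at this
    exact i6.symm
  rw [Subgroup.mem_centralizer_singleton_iff, hcm]
  exact hp

end Pool.Agent.FourGp.FF.Fp
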