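import Pool.Agent.Lib.MP_fb3619_al.FP.Base
import Pool.Agent.Lib.MP_fb3619_al.H4.Abf

/-!
# MP_fb3619_al, board FPF, row NNE (paper 2): `N_c ≠ 1` and `N_c ≤ F_c` (helper26)
-/

set_option autoImplicit false

universe u

namespace Pool.Agent.FourGp.FF.Fp

open Pool.Agent.FourGp.H47 (Odd' inv_of_sq conj_inv_pow mul_inv_self odd_conj comm_of_inv
  mul_inv_self' comm_pow comm_inv conj_comm comm_conj)
open Pool.Agent.FourGp.H99 (LF)
open Pool.Agent.FourGp.FF.Abo
open Pool.Agent.FourGp.FF.Bs (MinC Min0)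

/-- Row NNE. -/
theorem nne : NneS.{u} := by
  intro G _ K a b c m
  have h := m.fr
  by_contra hno
  have hMc : Subgroup.closure {u | Mi K c a u} ≤ Cz K c :=
    (Subgroup.closure_le _).2 fun u hu => hu.1
  have hMfi : ∀ f ∈ Subgroup.closure {u | Mi K c a u}, fi (Cz K c) f := by
    intro f hf
    have h1 : Subgroup.closure {u | Mi K c a u} ≤ HD (Cz K c) :=
      (Subgroup.closure_le _).2 fun u hu =>
        mi_fi' h.rot.rot (by rw [fx_ca h]; exact m.fin) hu
    exact h1 hf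
  have hMa : ∀ u ∈ Subgroup.closure {u | Mi K c a u},
      a * u * a ∈ Subgroup.closure {u | Mi K c a u} := by
    intro u hu
    refine Subgroup.closure_induction
      (p := fun u _ => a * u * a ∈ Subgroup.closure {u | Mi K c a u}) ?_ ?_ ?_ ?_ hu
    · intro x hx
      rw [hx.2]
      exact Subgroup.inv_mem _ (Subgroup.subset_closure hx)
    · rw [mul_one, h.aa]; exact Subgroup.one_mem _
    · intro x y _ _ hx hy
      rw [cj_mul h.aa]
      exact Subgroup.mul_mem _ hx hy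
    · intro x _ hx
      rw [cj_inv h.aa]
      exact Subgroup.inv_mem _ hx
  have hab : Ab K c a := by
    intro u v hu hv hui hvi
    have hu' : u ∈ Subgroup.closure {u | Mi K c a u} := Subgroup.subset_closure ⟨hu, hui⟩
    have hv' : v ∈ Subgroup.closure {u | Mi K c a u} := Subgroup.subset_closure ⟨hv, hvi⟩
    obtain ⟨w, s, hw, hs, e, hwa, hsi⟩ := h.dec (hMc.trans cz_le) h.aa hMa
      (Subgroup.mul_mem _ hu' hv')
    have hw1 : w = 1 := by
      by_contra hne
      have hwc := mem_Cz.1 (hMc hw)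
      exact hno ⟨w, mem_Fx.2 ⟨hwc.1, hwa, h.rot.rot.comm3 hwc.2 hwa⟩, hne, hw, hMfi w hw⟩
    have h1 : a * (u * v) * a = (u * v)⁻¹ := by rw [e, hw1, one_mul]; exact hsi
    have h2 : a * (u * v) * a = u⁻¹ * v⁻¹ := by rw [cj_mul h.aa, hui, hvi]
    have h3 : (u⁻¹ * v⁻¹)⁻¹ = u * v := by rw [← h2, h1, inv_inv]
    rw [mul_inv_rev, inv_inv, inv_inv] at h3
    exact h3.symm
  exact m.nlf (ab1Fin G K a c b h.swap' (by rw [fx_ac h]; exact m.fin) hab)

end Pool.Agent.FourGp.FF.Fp
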