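import Pool.Agent.Lib.MP_fb3619_al.FP.Base

/-!
# MP_fb3619_al, board FPF, row P2 (paper 4): an invariant locally finite subgroup cannot have
finite index in two types
-/

set_option autoImplicit false

universe u

namespace Pool.Agent.FourGp.FF.Fp

open Pool.Agent.FourGp.H47 (Odd' inv_of_sq conj_inv_pow mul_inv_self odd_conj comm_of_inv
  mul_inv_self' comm_pow comm_inv conj_comm comm_conj)
open Pool.Agent.FourGp.H99 (LF)
open Pool.Agent.FourGp.FF.Abo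
open Pool.Agent.FourGp.FF.Pq (TA mem_TA)
open Pool.Agent.FourGp.FF.Bs (MinC Min0 HerS CkS CmsS)
open Pool.Agent.FourGp.FF.Fi (cjg Tm AT Fam)

theorem ta_inv_b {G : Type u} [Group G] {K : Subgroup G} {a b c : G} (h : Fr K a b c) :
    VInv a b (TA K b a) := ⟨(ta_inv h.swap).2, (ta_inv h.swap).1⟩

theorem ta_inv_c {G : Type u} [Group G] {K : Subgroup G} {a b c : G} (h : Fr K a b c) :
    VInv a b (TA K c a) := by
  have h1 := ta_inv h.rot.rot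
  refine ⟨h1.2, ?_⟩
  exact Fi.inv_third h.rot.rot h1

theorem inf_vinv {G : Type u} [Group G] {a b : G} {X Y : Subgroup G} (hX : VInv a b X)
    (hY : VInv a b Y) : VInv a b (X ⊓ Y : Subgroup G) :=
  ⟨fun u hu => Subgroup.mem_inf.2
    ⟨hX.1 u (Subgroup.mem_inf.1 hu).1, hY.1 u (Subgroup.mem_inf.1 hu).2⟩,
    fun u hu => Subgroup.mem_inf.2
    ⟨hX.2 u (Subgroup.mem_inf.1 hu).1, hY.2 u (Subgroup.mem_inf.1 hu).2⟩⟩

theorem ta_fx_b {G : Type u} [Group G] {K : Subgroup G} {a b c : G} (h : Fr K a b c) {f t : G}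
    (hf : f ∈ Fx K a b) (ht : t ∈ TA K b a) : f⁻¹ * t * f ∈ TA K b a :=
  ta_fx h.swap (by rw [Fr.fx_swap]; exact hf) ht

theorem ta_fx_c {G : Type u} [Group G] {K : Subgroup G} {a b c : G} (h : Fr K a b c) {f t : G}
    (hf : f ∈ Fx K a b) (ht : t ∈ TA K c a) : f⁻¹ * t * f ∈ TA K c a :=
  ta_fx h.rot.rot (by rw [fx_ca h]; exact hf) ht

theorem inf_conj {G : Type u} [Group G] {X Y : Subgroup G} {f : G}
    (hX : ∀ u ∈ X, f⁻¹ * u * f ∈ X) (hY : ∀ u ∈ Y, f⁻¹ * u * f ∈ Y) :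
    ∀ u ∈ X ⊓ Y, f⁻¹ * u * f ∈ X ⊓ Y := fun u hu => Subgroup.mem_inf.2
    ⟨hX u (Subgroup.mem_inf.1 hu).1, hY u (Subgroup.mem_inf.1 hu).2⟩

theorem p2 (hY : YlS.{u}) (hF : FlatS.{u}) (h1 : TrvS.{u}) (h2 : NneS.{u}) (h3 : HdfS.{u}) :
    P2S.{u} := by
  intro G _ K a b c m t L hLK hLV hLF hLc hLa hLb
  have h := m.fr
  have hSa : L ⊓ TA K a b ≤ TA K a b := inf_le_right
  have hSb : L ⊓ TA K b a ≤ TA K b a := inf_le_right
  have hSc : L ⊓ TA K c a ≤ TA K c a := inf_le_right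
  set W : Subgroup G := L ⊓ TA K a b ⊔ L ⊓ TA K b a ⊔ L ⊓ TA K c a with hW
  have hWL : W ≤ L := sup_le (sup_le inf_le_left inf_le_left) inf_le_left
  have hWV : VInv a b W := sup_inv h (sup_inv h (inf_vinv hLV (ta_inv h))
    (inf_vinv hLV (ta_inv_b h))) (inf_vinv hLV (ta_inv_c h))
  have hWLF : LF W := LF_mono hWL hLF
  -- the conjugation by elements of `F`
  have hWF : ∀ f ∈ W, f ∈ Fx K a b → f = 1 := by
    refine hF G K a b c h m.fin _ _ _ hSa hSb hSc hWLF ?_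
    intro f hfW hf
    have hfL : f ∈ L := hWL hfW
    have hLf : ∀ u ∈ L, f⁻¹ * u * f ∈ L := fun u hu =>
      L.mul_mem (L.mul_mem (L.inv_mem hfL) hu) hfL
    exact ⟨inf_conj hLf fun u hu => ta_fx h hf hu, inf_conj hLf fun u hu => ta_fx_b h hf hu,
      inf_conj hLf fun u hu => ta_fx_c h hf hu⟩
  have hWa : W.relIndex (Cz K a) ≠ 0 :=
    ind_mono (inf_ind hLa (ta_ind h t.ta)) (le_sup_left.trans le_sup_left)
  have hWb : W.relIndex (Cz K b) ≠ 0 :=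
    ind_mono (inf_ind hLb (ta_ind h.swap t.swap.ta)) (le_sup_right.trans le_sup_left)
  obtain ⟨f, hf, hf1, -, hfc⟩ := h2 G K a b c m
  have hLf : ∀ u ∈ L, f⁻¹ * u * f ∈ L := hLc f hf hfc
  have hWf : ∀ w ∈ W, f⁻¹ * w * f ∈ W :=
    sup_conj (sup_conj (inf_conj hLf fun u hu => ta_fx h hf hu)
      (inf_conj hLf fun u hu => ta_fx_b h hf hu)) (inf_conj hLf fun u hu => ta_fx_c h hf hu)
  have hfWc : fi (W ⊓ Cz K c) f := Fct.fi_mono hfc inf_le_right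
  -- Lemma Y, big type `a`
  have e1 := hY G K a b c h W (hWL.trans hLK) hWV hWLF hWF
    ((h3 G K a b c m t).2.subset fun x hx => ⟨hx.2.1, fi_up hWa hx.2.2⟩)
    ((h3 G K a c b (minC_swap' m) t.swap').2.subset fun x hx => ⟨hx.2.1, fi_up hWa hx.2.2⟩)
    f hf hWf hfWc
  have hfb : fi (Cz K b) f := fi_up hWb e1.1
  -- Lemma Y, big type `b`
  have e2 := hY G K b a c h.swap W (hWL.trans hLK) ⟨hWV.2, hWV.1⟩ hWLF
    (fun g hg hg' => hWF g hg (by rw [← Fr.fx_swap]; exact hg'))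
    ((h3 G K b a c (minC_swap m) t.swap).2.subset fun x hx => ⟨hx.2.1, fi_up hWb hx.2.2⟩)
    ((h3 G K b c a (minC_rot m) t.rot).2.subset fun x hx => ⟨hx.2.1, fi_up hWb hx.2.2⟩)
    f (by rw [Fr.fx_swap]; exact hf) hWf hfWc
  have hfa : fi (Cz K a) f := fi_up hWa e2.1
  refine hf1 (h1 G K a b c m t f (mem_Fx.1 hf).1 (Or.inl ?_) (Or.inl ?_) hfa hfb hfc)
  · exact cj_fix h.aa (mem_Fx.1 hf).2.1
  · exact cj_fix h.bb (mem_Fx.1 hf).2.2

end Pool.Agent.FourGp.FF.Fp
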