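import Pool.Agent.Lib.MP_fb3619_al.FP.Base

/-!
# MP_fb3619_al, board FPF, row PFF (paper 5): `F_a ∩ F_b = 1`
-/

set_option autoImplicit false

universe u

namespace Pool.Agent.FourGp.FF.Fp

open Pool.Agent.FourGp.H47 (Odd' inv_of_sq conj_inv_pow mul_inv_self odd_conj comm_of_inv
  mul_inv_self' comm_pow comm_inv conj_comm comm_conj)
open Pool.Agent.FourGp.H99 (LF)
open Pool.Agent.FourGp.FF.Abo
open Pool.Agent.FourGp.FF.Pq (TA mem_TA)
open Pool.Agent.FourGp.FF.Bs (MinC Min0 HerS CkS CmsS)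
open Pool.Agent.FourGp.FF.Fi (cjg Tm AT Fam)

theorem fi_inv' {G : Type u} [Group G] {D : Subgroup G} {x : G} (hx : fi D x) : fi D x⁻¹ := by
  refine Fct.rel_le hx ?_
  intro g _ hg
  rw [Subgroup.mem_centralizer_singleton_iff] at hg ⊢
  have c : Commute g x := hg
  exact c.inv_right

theorem fi_mul' {G : Type u} [Group G] {D : Subgroup G} {x y : G} (hx : fi D x)
    (hy : fi D y) : fi D (x * y) := by
  refine Fct.rel_le (inf_ind hx hy) ?_
  intro g _ hg
  obtain ⟨h1, h2⟩ := Subgroup.mem_inf.1 hg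
  rw [Subgroup.mem_centralizer_singleton_iff] at h1 h2 ⊢
  have c1 : Commute g x := h1
  have c2 : Commute g y := h2
  exact c1.mul_right c2

theorem pff (hC : CkS.{u}) (h2 : P2S.{u}) : PffS.{u} := by
  intro G _ K a b c m t
  have h := m.fr
  have key : ∀ f ∈ Fx K a b, fi (Cz K a) f → fi (Cz K b) f → f = 1 := by
    intro f hf hfa hfb
    by_contra hf1
    set E : Set G := {g | g ∈ Fx K a b ∧ fi (Cz K a) g ∧ fi (Cz K b) g} with hE
    have hEfin : E.Finite := m.fin.subset fun x hx => hx.1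
    have hfE : f ∈ E := ⟨hf, hfa, hfb⟩
    have hLK : (K ⊓ Subgroup.centralizer E : Subgroup G) ≤ K := inf_le_left
    have hLV : VInv a b (K ⊓ Subgroup.centralizer E : Subgroup G) :=
      cent_inv h fun x hx => hx.1
    have hLF : LF (K ⊓ Subgroup.centralizer E : Subgroup G) := by
      refine LF_mono ?_ ((hC G K a b c m.toMin0).1 f hf hf1)
      intro u hu
      obtain ⟨hu1, hu2⟩ := Subgroup.mem_inf.1 hu
      refine Subgroup.mem_inf.2 ⟨hu1, ?_⟩
      rw [Subgroup.mem_centralizer_iff] at hu2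
      rw [Subgroup.mem_centralizer_singleton_iff]
      exact (hu2 f hfE).symm
    have hLc : ∀ g ∈ Fx K a b, fi (Cz K c) g → ∀ u ∈ (K ⊓ Subgroup.centralizer E : Subgroup G),
        g⁻¹ * u * g ∈ (K ⊓ Subgroup.centralizer E : Subgroup G) := by
      intro g hg _ u hu
      refine cent_conj h (X := E) ?_ hu
      rintro x ⟨hx1, hx2, hx3⟩
      have hg' : g⁻¹ ∈ Fx K a b := (Fx K a b).inv_mem hg
      have e1 := fi_fx (fx_cza hg') hx2
      have e2 := fi_fx (fx_czb hg') hx3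
      rw [inv_inv] at e1 e2
      exact ⟨(Fx K a b).mul_mem ((Fx K a b).mul_mem hg hx1) hg', e1, e2⟩
    have hKa : K.relIndex (Cz K a) ≠ 0 := by
      rw [Subgroup.relIndex_eq_one.2 (cz_le : Cz K a ≤ K)]
      exact one_ne_zero
    have hKb : K.relIndex (Cz K b) ≠ 0 := by
      rw [Subgroup.relIndex_eq_one.2 (cz_le : Cz K b ≤ K)]
      exact one_ne_zero
    have hLa : (K ⊓ Subgroup.centralizer E : Subgroup G).relIndex (Cz K a) ≠ 0 :=
      inf_ind hKa (Fct.cent_ne hEfin fun x hx => hx.2.1)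
    have hLb : (K ⊓ Subgroup.centralizer E : Subgroup G).relIndex (Cz K b) ≠ 0 :=
      inf_ind hKb (Fct.cent_ne hEfin fun x hx => hx.2.2)
    exact h2 G K a b c m t _ hLK hLV hLF hLc hLa hLb
  refine ⟨key, ?_⟩
  intro f hf hfa g hg hgb
  have hf' : f⁻¹ ∈ Fx K a b := (Fx K a b).inv_mem hf
  have hg' : g⁻¹ ∈ Fx K a b := (Fx K a b).inv_mem hg
  have e1 : f⁻¹ * g⁻¹ * f * g ∈ Fx K a b :=
    (Fx K a b).mul_mem ((Fx K a b).mul_mem ((Fx K a b).mul_mem hf' hg') hf) hg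
  have e2 : fi (Cz K a) (f⁻¹ * g⁻¹ * f * g) := by
    have e : f⁻¹ * g⁻¹ * f * g = f⁻¹ * (g⁻¹ * f * g) := by group
    rw [e]
    exact fi_mul' (fi_inv' hfa) (fi_fx (fx_cza hg) hfa)
  have e3 : fi (Cz K b) (f⁻¹ * g⁻¹ * f * g) :=
    fi_mul' (fi_fx (fx_czb hf) (fi_inv' hgb)) hgb
  have e4 := key _ e1 e2 e3
  calc f * g = (g * f) * (f⁻¹ * g⁻¹ * f * g) := by group
    _ = g * f := by rw [e4, mul_one]

end Pool.Agent.FourGp.FF.Fp
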