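import Pool.Agent.Lib.MP_fb3619_al.FP.Iface2
import Pool.Agent.Lib.MP_fb3619_al.FP.Base
import Pool.Agent.Lib.MP_fb3619_al.FF.Fac
import Pool.Agent.Lib.MP_fb3619_al.FF.Sgm
import Pool.Agent.Lib.MP_fb3619_al.FF.Fin

/-!
# MP_fb3619_al, board FPF, row PV1 (paper 14): no homologies (the chord of finding 4520)
-/

set_option autoImplicit false

universe u

namespace Pool.Agent.FourGp.FF.Fp

open Pool.Agent.FourGp.H47 (Odd' inv_of_sq conj_inv_pow mul_inv_self odd_conj comm_of_inv
  mul_inv_self' comm_pow comm_inv conj_comm comm_conj)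
open Pool.Agent.FourGp.H99 (LF)
open Pool.Agent.FourGp.FF.Abo
open Pool.Agent.FourGp.FF.Pq (TA mem_TA)
open Pool.Agent.FourGp.FF.Bs (MinC Min0 HerS CkS CmsS)
open Pool.Agent.FourGp.FF.Fi (cjg Tm AT Fam)

variable {G : Type u} [Group G] {K : Subgroup G} {a b c : G}

theorem pv1_tb_ne (m : MinC K a b c) (t : AT K a b c) : ∃ t ∈ TA K b a, t ≠ 1 := by
  by_contra hc
  have h := m.fr
  have h1 : TA K b a = ⊥ := by
    rw [eq_bot_iff]
    intro x hx
    by_contra hx1
    exact hc ⟨x, hx, fun e => hx1 (by rw [e]; exact Subgroup.one_mem _)⟩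
  have h2 := ta_ind h.swap t.swap.ta
  rw [h1, Subgroup.relIndex_bot_left] at h2
  have h3 : Finite (Cz K b) := Nat.finite_of_card_ne_zero h2
  exact m.nlf (lf_of_finite shu h h3)

theorem pv1_odd_sq {x : G} (ho : Odd' x) (h : x * x = 1) : x = 1 := by
  obtain ⟨n, hn⟩ := ho
  rw [pow_succ, pow_mul, pow_two, h, one_pow, one_mul] at hn
  exact hn

theorem pv1_comm_sq {x y : G} (ho : Odd' x) (h : y * (x * x) = (x * x) * y) : y * x = x * y := by
  obtain ⟨n, hn⟩ := ho
  have e : x = (x * x) ^ (n + 1) := by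
    rw [← pow_two, ← pow_mul]
    have : 2 * (n + 1) = (2 * n + 1) + 1 := by ring
    rw [this, pow_succ, hn, one_mul]
  have c1 : Commute y (x * x) := h
  have c2 := c1.pow_right (n + 1)
  rw [← e] at c2
  exact c2.eq

/-- An odd element cannot invert an odd element. -/
theorem pv1_no_inv {e x : G} (he : Odd' e) (hx : Odd' x) (h : e⁻¹ * x * e = x⁻¹) : x = 1 := by
  obtain ⟨n, hn⟩ := he
  have h2 : ∀ k : ℕ, (e ^ (2 * k))⁻¹ * x * e ^ (2 * k) = x := by
    intro k
    induction k with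
    | zero => simp
    | succ k ih =>
      have e1 : e ^ (2 * (k + 1)) = e ^ (2 * k) * e * e := by
        rw [show 2 * (k + 1) = 2 * k + 1 + 1 by ring, pow_succ, pow_succ]
      rw [e1]
      calc (e ^ (2 * k) * e * e)⁻¹ * x * (e ^ (2 * k) * e * e)
          = e⁻¹ * (e⁻¹ * ((e ^ (2 * k))⁻¹ * x * e ^ (2 * k)) * e) * e := by group
        _ = e⁻¹ * x⁻¹ * e := by rw [ih, h]
        _ = (e⁻¹ * x * e)⁻¹ := by group
        _ = x := by rw [h, inv_inv]
  have h3 := h2 n
  have h4 : x = x⁻¹ := by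
    calc x = (e ^ (2 * n + 1))⁻¹ * x * e ^ (2 * n + 1) := by rw [hn]; group
      _ = e⁻¹ * ((e ^ (2 * n))⁻¹ * x * e ^ (2 * n)) * e := by rw [pow_succ]; group
      _ = x⁻¹ := by rw [h3, h]
  refine pv1_odd_sq hx ?_
  nth_rewrite 1 [h4]
  exact inv_mul_cancel x

/-- `e` commutes with the involutions of type `c` which commute with `a`. -/
theorem pv1_ec (h : Fr K a b c) {e : G} (he : e ∈ Fx K a b)
    (hcom : ∀ u, Mi K a b u → e * u = u * e) {z : G} (hz : Ty K c z) (hza : z * a = a * z) :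
    e * z = z * e := by
  have hm : Mi K a b (c * z) := by
    refine (mi_c h).2 ⟨mem_Cz.2 ⟨?_, ?_⟩, ?_⟩
    · have h1 := K.inv_mem hz.2
      rwa [mul_inv_rev, inv_of_sq hz.1, inv_of_sq h.cc] at h1
    · have c1 : Commute c a := h.cac.symm
      have c2 : Commute z a := hza
      exact (c1.mul_left c2).eq
    · rw [mul_inv_rev, inv_of_sq hz.1, inv_of_sq h.cc, ← mul_assoc, h.cc, one_mul]
  have c1 : Commute e (c * z) := hcom _ hm
  have c2 : Commute e c := h.comm3 (mem_Fx.1 he).2.1 (mem_Fx.1 he).2.2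
  have c3 : Commute e (c * (c * z)) := c2.mul_right c1
  rw [← mul_assoc, h.cc, one_mul] at c3
  exact c3.eq

theorem pv1 (hF : FpfS.{u}) (hI : IsolS.{u}) : Pv1S.{u} := by
  intro G _ K a b c m t e he hcom
  by_contra he1
  have h := m.fr
  have heK : e ∈ K := (mem_Fx.1 he).1
  have hea : fi (Cz K a) e := by
    refine ind_mono (ta_ind h t.ta) (fun s hs => ?_)
    rw [Subgroup.mem_centralizer_singleton_iff]
    exact (hcom s (ta_mi h hs)).symm
  obtain ⟨-, -, o⟩ := hF G K a b c m t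
  obtain ⟨o1, -, -⟩ := o e he hea he1
  obtain ⟨al, hal, hal1⟩ := pv1_tb_ne (minC_swap m) t.swap
  have halm := ta_mi h hal
  have halK : al ∈ K := (mem_Cz.1 halm.1).1
  obtain ⟨mm, hmm, hmm1⟩ := pv1_tb_ne m t
  have hmmK : mm ∈ K := ta_leK h.swap hmm
  have hsw : Fx K b a = Fx K a b := Fr.fx_swap.symm
  have heb : e * b = b * e := (mem_Fx.1 he).2.2
  have heal : e * al = al * e := hcom al halm
  set n := e⁻¹ * mm * e with hn
  have hnT : n ∈ TA K b a := ta_fx h.swap (by rw [hsw]; exact he) hmm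
  have hnK : n ∈ K := ta_leK h.swap hnT
  have hmn : mm * n = n * mm := ta_comm h.swap hmm hnT
  set mu := mm⁻¹ * n with hmu
  have hmuT : mu ∈ TA K b a := Subgroup.mul_mem _ (Subgroup.inv_mem _ hmm) hnT
  have hmuK : mu ∈ K := ta_leK h.swap hmuT
  have hen : e * n = mm * e := by rw [hn]; group
  have hmu1 : mu ≠ 1 := by
    intro e1
    have e2 : n = mm := by
      have : n = mm * mu := by rw [hmu]; group
      rw [this, e1, mul_one]
    apply hmm1
    refine o1 mm (ta_mi h.swap hmm) ?_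
    rw [← hen, e2]
  -- the involutions
  set x := al⁻¹ * b * al with hx
  have hxT : Ty K b x := h.rot.ty_conj h.rot.ty_a halK
  set a1 := mm * a * mm⁻¹ with ha1
  have ha1T : Ty K a a1 := by
    have := h.ty_conj h.ty_a (K.inv_mem hmmK)
    rwa [inv_inv] at this
  set a2 := n⁻¹ * a * n with ha2
  have ha2T : Ty K a a2 := h.ty_conj h.ty_a hnK
  obtain ⟨k1, hz1, hz1a, hz1x⟩ := h.perp ha1T hxT
  obtain ⟨k2, hz2, hz2a, hz2x⟩ := h.perp ha2T hxT
  set z1 := (a1 * x) ^ k1 with hz1d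
  set z2 := (a2 * x) ^ k2 with hz2d
  have hex : e * x = x * e := by
    have c1 : Commute e al := heal
    have c2 : Commute e b := heb
    exact ((c1.inv_right.mul_right c2).mul_right c1).eq
  set x' := mu⁻¹ * x * mu with hx'
  have hx'T : Ty K b x' := h.rot.ty_conj hxT hmuK
  -- `z1` commutes with `e mu`
  have hE1 : mm * e * mm⁻¹ = e * mu := by
    calc mm * e * mm⁻¹ = e * n * mm⁻¹ := by rw [hen]
      _ = e * (mm⁻¹ * (mm * n)) * mm⁻¹ := by group
      _ = e * (mm⁻¹ * (n * mm)) * mm⁻¹ := by rw [hmn]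
      _ = e * (mm⁻¹ * n) := by group
  have hz1e : z1 * (e * mu) = (e * mu) * z1 := by
    have h1 : Ty K c (mm⁻¹ * z1 * mm) := h.rot.rot.ty_conj hz1 hmmK
    have h2 : (mm⁻¹ * z1 * mm) * a = a * (mm⁻¹ * z1 * mm) := by
      have : z1 * a1 = a1 * z1 := hz1a
      calc (mm⁻¹ * z1 * mm) * a = mm⁻¹ * (z1 * (mm * a * mm⁻¹)) * mm := by group
        _ = mm⁻¹ * ((mm * a * mm⁻¹) * z1) * mm := by rw [← ha1, this]
        _ = _ := by group
    have h3 := pv1_ec h he hcom h1 h2
    rw [← hE1]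
    calc z1 * (mm * e * mm⁻¹) = mm * ((mm⁻¹ * z1 * mm) * e) * mm⁻¹ := by group
      _ = mm * (e * (mm⁻¹ * z1 * mm)) * mm⁻¹ := by rw [h3]
      _ = _ := by group
  have hz1x' : z1 * x' = x' * z1 := by
    have e1 : x' = (e * mu)⁻¹ * x * (e * mu) := by
      calc x' = mu⁻¹ * (e⁻¹ * (e * x)) * mu := by rw [hx']; group
        _ = mu⁻¹ * (e⁻¹ * (x * e)) * mu := by rw [hex]
        _ = _ := by group
    have c1 : Commute z1 (e * mu) := hz1e
    have c2 : Commute z1 x := hz1x
    rw [e1]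
    exact ((c1.inv_right.mul_right c2).mul_right c1).eq
  -- `z2` commutes with `e⁻¹ mu`
  have hE2 : n⁻¹ * e⁻¹ * n = e⁻¹ * mu := by
    have h1 : n⁻¹ * e⁻¹ = e⁻¹ * mm⁻¹ := by rw [← mul_inv_rev, ← mul_inv_rev, hen]
    rw [h1, hmu]
    group
  have hz2e : z2 * (e⁻¹ * mu) = (e⁻¹ * mu) * z2 := by
    have h1 : Ty K c (n * z2 * n⁻¹) := by
      have := h.rot.rot.ty_conj hz2 (K.inv_mem hnK)
      rwa [inv_inv] at this
    have h2 : (n * z2 * n⁻¹) * a = a * (n * z2 * n⁻¹) := by
      have : z2 * a2 = a2 * z2 := hz2a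
      calc (n * z2 * n⁻¹) * a = n * (z2 * (n⁻¹ * a * n)) * n⁻¹ := by group
        _ = n * ((n⁻¹ * a * n) * z2) * n⁻¹ := by rw [← ha2, this]
        _ = _ := by group
    have h3 : Commute e (n * z2 * n⁻¹) := pv1_ec h he hcom h1 h2
    have h4 : e⁻¹ * (n * z2 * n⁻¹) = (n * z2 * n⁻¹) * e⁻¹ := h3.inv_left.eq
    rw [← hE2]
    calc z2 * (n⁻¹ * e⁻¹ * n) = n⁻¹ * ((n * z2 * n⁻¹) * e⁻¹) * n := by group
      _ = n⁻¹ * (e⁻¹ * (n * z2 * n⁻¹)) * n := by rw [h4]
      _ = _ := by group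
  have hz2x' : z2 * x' = x' * z2 := by
    have e1 : x' = (e⁻¹ * mu)⁻¹ * x * (e⁻¹ * mu) := by
      calc x' = mu⁻¹ * ((x * e) * e⁻¹) * mu := by rw [hx']; group
        _ = mu⁻¹ * ((e * x) * e⁻¹) * mu := by rw [hex]
        _ = _ := by group
    have c1 : Commute z2 (e⁻¹ * mu) := hz2e
    have c2 : Commute z2 x := hz2x
    rw [e1]
    exact ((c1.inv_right.mul_right c2).mul_right c1).eq
  by_cases hzz : z1 = z2
  · -- `z1 = z2`
    have hai : ∀ s ∈ TA K b a, a * s * a = s⁻¹ := fun s hs => (ta_mi h.swap hs).2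
    have hci : ∀ s ∈ TA K b a, c * s * c = s⁻¹ := fun s hs => ((mi_c h.swap).1 (ta_mi h.swap hs)).2
    have hmnT : mm * n ∈ TA K b a := Subgroup.mul_mem _ hmm hnT
    have hsq : (mm * n) * (mm * n) ∈ TA K b a := Subgroup.mul_mem _ hmnT hmnT
    have e1 : a1 * a2 = (mm * n) * (mm * n) := by
      have h1 : a * (mm⁻¹ * n⁻¹) * a = n * mm := by
        rw [hai _ (Subgroup.mul_mem _ (Subgroup.inv_mem _ hmm) (Subgroup.inv_mem _ hnT))]
        group
      calc a1 * a2 = mm * (a * (mm⁻¹ * n⁻¹) * a) * n := by rw [ha1, ha2]; group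
        _ = mm * (n * mm) * n := by rw [h1]
        _ = _ := by group
    have h2 : (mm * n) * (mm * n) * z1 = z1 * ((mm * n) * (mm * n)) := by
      have c1 : Commute z1 a1 := hz1a
      have c2 : Commute z1 a2 := by
        rw [hzz]
        exact hz2a
      rw [← e1]
      exact (c1.mul_right c2).eq.symm
    have h3 := h.rot.rot.parity hz1 h.rot.rot.ty_a (ta_leK h.swap hsq) h2 (hci _ hsq)
    have h4 := pv1_odd_sq (h.odd _ (K.mul_mem hmmK hnK)) h3
    have h5 : e⁻¹ * mm * e = mm⁻¹ := by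
      rw [← hn]
      exact eq_inv_of_mul_eq_one_right h4
    exact hmm1 (pv1_no_inv (h.odd e heK) (h.odd mm hmmK) h5)
  · -- `z1 ≠ z2`
    obtain ⟨g, hg, -, hgb, hgc⟩ := h.swap.flag_conj (∅ : Set G) (x := b) (y := c) (x' := x)
      (y' := z1) h.rot.ty_a h.rot.rot.ty_a hxT hz1 h.cbc hz1x.symm (by simp) (by simp) (by simp)
      (by simp)
    set k := z1 * z2 with hk
    have hkK : k ∈ K := h.rot.rot.ty_mul hz1 hz2
    have hk1 : k ≠ 1 := by
      intro e1
      apply hzz
      have : z1 = z2⁻¹ := eq_inv_of_mul_eq_one_left e1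
      rw [this, inv_of_sq hz2.1]
    have hkx : k * x = x * k := by
      have c1 : Commute z1 x := hz1x
      have c2 : Commute z2 x := hz2x
      exact (c1.mul_left c2).eq
    have hkx' : k * x' = x' * k := by
      have c1 : Commute z1 x' := hz1x'
      have c2 : Commute z2 x' := hz2x'
      exact (c1.mul_left c2).eq
    set k' := g * k * g⁻¹ with hk'
    have hk'K : k' ∈ K := by
      have := h.cjk (g := g⁻¹) hkK
      rwa [inv_inv] at this
    have hbx : b = g * x * g⁻¹ := by rw [← hgb]; group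
    have hcz : c = g * z1 * g⁻¹ := by rw [← hgc]; group
    have hk'm : Mi K b a k' := by
      refine (mi_c h.swap).2 ⟨mem_Cz.2 ⟨hk'K, ?_⟩, ?_⟩
      · rw [hbx, hk']
        calc g * k * g⁻¹ * (g * x * g⁻¹) = g * (k * x) * g⁻¹ := by group
          _ = g * (x * k) * g⁻¹ := by rw [hkx]
          _ = _ := by group
      · rw [hcz, hk', hk]
        calc g * z1 * g⁻¹ * (g * (z1 * z2) * g⁻¹) * (g * z1 * g⁻¹)
            = g * ((z1 * z1) * z2 * z1) * g⁻¹ := by group
          _ = g * (z2 * z1) * g⁻¹ := by rw [hz1.1, one_mul]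
          _ = g * (z2⁻¹ * z1⁻¹) * g⁻¹ := by rw [inv_of_sq hz1.1, inv_of_sq hz2.1]
          _ = _ := by group
    have hk'1 : k' ≠ 1 := by
      intro e1
      apply hk1
      have : k = g⁻¹ * k' * g := by rw [hk']; group
      rw [this, e1]
      group
    have hy0K : x * x' ∈ K := h.rot.ty_mul hxT hx'T
    have hyc : g * (x * x') * g⁻¹ ∈ Cz K b := by
      refine hI G K a b c m t k' hk'm hk'1 _ ?_ ?_
      · have := h.cjk (g := g⁻¹) hy0K
        rwa [inv_inv] at this
      · have c1 : Commute k x := hkx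
        have c2 : Commute k x' := hkx'
        have c3 : x * x' * k = k * (x * x') := (c1.mul_right c2).eq.symm
        rw [hk']
        calc g * (x * x') * g⁻¹ * (g * k * g⁻¹) = g * (x * x' * k) * g⁻¹ := by group
          _ = g * (k * (x * x')) * g⁻¹ := by rw [c3]
          _ = _ := by group
    have hyx : (x * x') * x = x * (x * x') := by
      have h1 := (mem_Cz.1 hyc).2
      rw [hbx] at h1
      calc (x * x') * x = g⁻¹ * (g * (x * x') * g⁻¹ * (g * x * g⁻¹)) * g := by group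
        _ = g⁻¹ * (g * x * g⁻¹ * (g * (x * x') * g⁻¹)) * g := by rw [h1]
        _ = _ := by group
    have hxx : x = x' := by
      refine h.rot.ty_eq hxT hx'T ?_
      have h1 : x * (x' * x) = x * (x * x') := by rw [← mul_assoc, hyx]
      exact (mul_left_cancel h1).symm
    -- `mu` commutes with `x`, so with `al`
    have hmux : mu * x = x * mu := by
      have h1 : mu * x' = x * mu := by rw [hx']; group
      rwa [← hxx] at h1
    have hmub : mu * b = b * mu := (mem_Cz.1 (ta_mi h.swap hmuT).1).2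
    have hbx2 : b * x = al * al := by
      have h1 : b * al⁻¹ * b = al := by
        have h2 := halm.2
        have h3 : (b * al * b)⁻¹ = al := by rw [h2, inv_inv]
        rw [mul_inv_rev, mul_inv_rev, inv_of_sq h.bb] at h3
        rw [mul_assoc]
        exact h3
      calc b * x = (b * al⁻¹ * b) * al := by rw [hx]; group
        _ = al * al := by rw [h1]
    have hmual : mu * al = al * mu := by
      refine pv1_comm_sq (h.odd al halK) ?_
      have c1 : Commute mu b := hmub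
      have c2 : Commute mu x := hmux
      rw [← hbx2]
      exact (c1.mul_right c2).eq
    have halb : al ∈ Cz K b := hI G K a b c m t mu (ta_mi h.swap hmuT) hmu1 al halK hmual.symm
    apply hal1
    refine pv1_odd_sq (h.odd al halK) ?_
    have h1 := halm.2
    rw [← (mem_Cz.1 halb).2, mul_assoc, h.bb, mul_one] at h1
    nth_rewrite 1 [h1]
    exact inv_mul_cancel al

end Pool.Agent.FourGp.FF.Fp
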