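import Pool.Agent.Lib.MP_fb3619_al.FP.Base

/-!
# MP_fb3619_al, board FPF, row SFI: `C_K(F_a F_b F_c)` is finite (paper 7)
-/

set_option autoImplicit false

universe u

namespace Pool.Agent.FourGp.FF.Fp

open Pool.Agent.FourGp.H47 (Odd' inv_of_sq conj_inv_pow mul_inv_self odd_conj comm_of_inv
  mul_inv_self' comm_pow comm_inv conj_comm comm_conj)
open Pool.Agent.FourGp.H99 (LF)
open Pool.Agent.FourGp.FF.Abo
open Pool.Agent.FourGp.FF.Pq (TA mem_TA)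
open Pool.Agent.FourGp.FF.Bs (MinC Min0 HerS CkS CmsS)
open Pool.Agent.FourGp.FF.Fi (cjg Tm AT Fam mem_cjg cjg_mul cjg_one rel_cjg)

section

variable {G : Type u} [Group G] {K : Subgroup G} {a b c : G}

/-- `S = C_K(F_a F_b F_c)`. -/
def Sf (K : Subgroup G) (a b c : G) : Subgroup G :=
  K ⊓ Subgroup.centralizer {f | f ∈ Fx K a b ∧
    (fi (Cz K a) f ∨ fi (Cz K b) f ∨ fi (Cz K c) f)}

theorem mem_Sf {x : G} : x ∈ Sf K a b c ↔ x ∈ K ∧ ∀ f ∈ Fx K a b,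
    fi (Cz K a) f ∨ fi (Cz K b) f ∨ fi (Cz K c) f → f * x = x * f := by
  unfold Sf
  rw [Subgroup.mem_inf, Subgroup.mem_centralizer_iff]
  constructor
  · rintro ⟨h1, h2⟩
    exact ⟨h1, fun f hf hf' => h2 f ⟨hf, hf'⟩⟩
  · rintro ⟨h1, h2⟩
    exact ⟨h1, fun f hf => h2 f hf.1 hf.2⟩

theorem Sf_swap' (h : Fr K a b c) : Sf K a c b = Sf K a b c := by
  ext x
  rw [mem_Sf, mem_Sf, fx_ac h]
  constructor
  · rintro ⟨h1, h2⟩
    exact ⟨h1, fun f hf hf' => h2 f hf (by tauto)⟩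
  · rintro ⟨h1, h2⟩
    exact ⟨h1, fun f hf hf' => h2 f hf (by tauto)⟩

theorem Sf_rot (h : Fr K a b c) : Sf K b c a = Sf K a b c := by
  ext x
  rw [mem_Sf, mem_Sf, h.fx_rot]
  constructor
  · rintro ⟨h1, h2⟩
    exact ⟨h1, fun f hf hf' => h2 f hf (by tauto)⟩
  · rintro ⟨h1, h2⟩
    exact ⟨h1, fun f hf hf' => h2 f hf (by tauto)⟩

theorem Sf_le : Sf K a b c ≤ K := fun _ hx => (mem_Sf.1 hx).1

theorem Sf_inv (h : Fr K a b c) : VInv a b (Sf K a b c) :=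
  cent_inv h fun _ hx => hx.1

theorem Sf_lf (m : MinC K a b c) (hC : CkS.{u}) (h2 : NneS.{u}) : LF (Sf K a b c) := by
  obtain ⟨e, he, he1, -, hec⟩ := h2 G K a b c m
  refine LF_mono ?_ ((hC G K a b c m.toMin0).1 e he he1)
  intro x hx
  obtain ⟨h3, h4⟩ := mem_Sf.1 hx
  refine Subgroup.mem_inf.2 ⟨h3, ?_⟩
  rw [Subgroup.mem_centralizer_singleton_iff]
  exact (h4 e he (Or.inr (Or.inr hec))).symm

/-- Conjugation by `t ∈ T_a'` on elements of `S ⊓ T_b` which commute with the commutators. -/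
theorem sfi_conj (h : Fr K a b c) {t g : G} (ht : t ∈ TP K a b) (hg : g ∈ Sf K a b c)
    (hz : ∀ f ∈ Fx K a b, fi (Cz K b) f ∨ fi (Cz K c) f →
      (t⁻¹ * (f⁻¹ * t * f)) * g = g * (t⁻¹ * (f⁻¹ * t * f))) :
    t⁻¹ * g * t ∈ Sf K a b c := by
  obtain ⟨ht1, ht2⟩ := mem_TP.1 ht
  obtain ⟨hgK, hg2⟩ := mem_Sf.1 hg
  refine mem_Sf.2 ⟨h.cjk hgK, fun f hf hf' => ?_⟩
  have hfg : f * g = g * f := hg2 f hf hf'
  by_cases hfa : fi (Cz K a) f
  · have c1 : Commute f t := ht2 f hf hfa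
    have c2 : Commute f g := hfg
    exact ((c1.inv_right.mul_right c2).mul_right c1).eq
  · have hbc : fi (Cz K b) f ∨ fi (Cz K c) f := by tauto
    have e1 := hz f hf hbc
    have htf : f⁻¹ * t * f ∈ TA K a b := ta_fx h hf ht1
    have c3 : Commute t (f⁻¹ * t * f) := ta_comm h ht1 htf
    have c4 : Commute (t⁻¹ * (f⁻¹ * t * f)) t :=
      ((Commute.refl t).inv_left.mul_left c3.symm)
    have c5 : Commute (t⁻¹ * (f⁻¹ * t * f)) g := e1
    have c6 : Commute (t⁻¹ * (f⁻¹ * t * f)) (t⁻¹ * g * t) :=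
      (c4.inv_right.mul_right c5).mul_right c4
    have e2 : f⁻¹ * (t⁻¹ * g * t) * f = t⁻¹ * g * t := by
      have hfg' : f⁻¹ * g * f = g := by
        rw [mul_assoc, ← hfg, ← mul_assoc, inv_mul_cancel, one_mul]
      calc f⁻¹ * (t⁻¹ * g * t) * f =
          (f⁻¹ * t * f)⁻¹ * (f⁻¹ * g * f) * (f⁻¹ * t * f) := by group
        _ = (f⁻¹ * t * f)⁻¹ * g * (f⁻¹ * t * f) := by rw [hfg']
        _ = (t⁻¹ * (f⁻¹ * t * f))⁻¹ * ((t⁻¹ * g * t) * (t⁻¹ * (f⁻¹ * t * f))) := by group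
        _ = (t⁻¹ * (f⁻¹ * t * f))⁻¹ * ((t⁻¹ * (f⁻¹ * t * f)) * (t⁻¹ * g * t)) := by
          rw [c6.eq]
        _ = t⁻¹ * g * t := by group
    calc f * (t⁻¹ * g * t) = f * (f⁻¹ * (t⁻¹ * g * t) * f) := by rw [e2]
      _ = t⁻¹ * g * t * f := by group

/-- The subgroup `F_a`. -/
theorem sfi_E (m : MinC K a b c) (h2 : NneS.{u}) :
    ∃ E : Subgroup G, E ≤ Fx K a b ∧ (∀ e ∈ E, fi (Cz K a) e) ∧ E ≠ ⊥ ∧
      Sf K a b c ≤ Subgroup.centralizer (E : Set G) := by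
  refine ⟨Fx K a b ⊓ HD (Cz K a), inf_le_left, fun e he => he.2, ?_, ?_⟩
  · intro h0
    obtain ⟨e, he, he1, -, hec⟩ := h2 G K b c a (minC_rot m)
    rw [m.fr.fx_rot] at he
    have h3 : e ∈ Fx K a b ⊓ HD (Cz K a) := Subgroup.mem_inf.2 ⟨he, hec⟩
    rw [h0, Subgroup.mem_bot] at h3
    exact he1 h3
  · intro x hx
    rw [Subgroup.mem_centralizer_iff]
    intro e he
    exact (mem_Sf.1 hx).2 e he.1 (Or.inl he.2)

/-- `S ⊓ t S t⁻¹` has finite index in `S ⊓ D_b`, for `t ∈ T_a'`. -/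
theorem sfi_b (m : MinC K a b c) (ht0 : AT K a b c) (h2 : NneS.{u}) (h6 : Y2S.{u}) {t : G}
    (ht : t ∈ TP K a b) : (cjg t (Sf K a b c)).relIndex (Sf K a b c ⊓ Cz K b) ≠ 0 := by
  have h := m.fr
  obtain ⟨E, hE, hEa, hE1, hES⟩ := sfi_E m h2
  obtain ⟨ht1, ht2⟩ := mem_TP.1 ht
  have hY := (h6 G K a b c m ht0 E hE hEa hE1).2 t ht1 ht2
  set Z : Set G := (fun f => t⁻¹ * (f⁻¹ * t * f)) ''
    {f | f ∈ Fx K a b ∧ (fi (Cz K b) f ∨ fi (Cz K c) f)} with hZ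
  have hZf : Z.Finite := (m.fin.subset fun f hf => hf.1).image _
  have h3 : (Subgroup.centralizer Z).relIndex
      (TA K b a ⊓ Subgroup.centralizer (E : Set G)) ≠ 0 := by
    refine Fct.cent_ne hZf ?_
    rintro _ ⟨f, hf, rfl⟩
    exact hY f hf.1 hf.2
  have h4 : (TA K b a).relIndex (Sf K a b c ⊓ Cz K b) ≠ 0 := fun h0 =>
    ta_ind h.swap ht0.swap.ta (Subgroup.relIndex_eq_zero_of_le_right inf_le_right h0)
  have h5 : (TA K b a ⊓ (Sf K a b c ⊓ Cz K b)).relIndex (Sf K a b c ⊓ Cz K b) ≠ 0 := by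
    rwa [Subgroup.inf_relIndex_right]
  have h7 : (Subgroup.centralizer Z).relIndex (TA K b a ⊓ (Sf K a b c ⊓ Cz K b)) ≠ 0 := fun h0 =>
    h3 (Subgroup.relIndex_eq_zero_of_le_right
      (le_inf inf_le_left (inf_le_right.trans (inf_le_left.trans hES))) h0)
  have h8 := Subgroup.relIndex_ne_zero_trans h7 h5
  refine Fct.rel_le h8 ?_
  intro g hg hgZ
  rw [mem_cjg]
  refine sfi_conj h ht hg.1 ?_
  intro f hf hf'
  rw [Subgroup.mem_centralizer_iff] at hgZ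
  exact hgZ _ ⟨f, ⟨hf, hf'⟩, rfl⟩

theorem sfi_a (m : MinC K a b c) (ht0 : AT K a b c) {t : G}
    (ht : t ∈ TP K a b) : (cjg t (Sf K a b c)).relIndex (Sf K a b c ⊓ Cz K a) ≠ 0 := by
  have h := m.fr
  have h4 : (TA K a b).relIndex (Sf K a b c ⊓ Cz K a) ≠ 0 := fun h0 =>
    ta_ind h ht0.ta (Subgroup.relIndex_eq_zero_of_le_right inf_le_right h0)
  refine Fct.rel_le h4 ?_
  intro g hg hgT
  rw [mem_cjg]
  have e : t⁻¹ * g * t = g := by
    rw [mul_assoc, ta_comm h hgT (mem_TP.1 ht).1, ← mul_assoc, inv_mul_cancel, one_mul]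
  rw [e]
  exact hg.1

theorem tp_swap (h : Fr K a b c) : TP K a b = TP K a c := by
  ext t
  rw [mem_TP, mem_TP, ta_swap h, fx_ac h]

theorem sfi_c (m : MinC K a b c) (ht0 : AT K a b c) (h2 : NneS.{u}) (h6 : Y2S.{u}) {t : G}
    (ht : t ∈ TP K a b) : (cjg t (Sf K a b c)).relIndex (Sf K a b c ⊓ Cz K c) ≠ 0 := by
  rw [tp_swap m.fr] at ht
  have h1 := sfi_b (minC_swap' m) ht0.swap' h2 h6 ht
  rwa [Sf_swap' m.fr] at h1

/-- The claim of the paper. -/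
theorem sfi_t (m : MinC K a b c) (ht0 : AT K a b c) (hC : CkS.{u}) (h2 : NneS.{u})
    (h6 : Y2S.{u}) {t : G} (ht : t ∈ TP K a b) :
    (cjg t (Sf K a b c)).relIndex (Sf K a b c) ≠ 0 := by
  have h := m.fr
  have ht' : t⁻¹ ∈ TP K a b := (TP K a b).inv_mem ht
  have hta : t * a = a * t := (mem_Cz.1 (ta_le h (mem_TP.1 ht).1)).2
  have htb : b * t * b = t⁻¹ := (ta_mi h (mem_TP.1 ht).1).2
  have htb' : b * t⁻¹ * b = t := by
    have := congrArg (fun x => x⁻¹) htb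
    simp only [mul_inv_rev, inv_inv, inv_of_sq h.bb] at this
    rw [mul_assoc]; exact this
  have hSV := Sf_inv h
  have key : (Sf K a b c ⊓ (cjg t (Sf K a b c) ⊓ cjg t⁻¹ (Sf K a b c))).relIndex
      (Sf K a b c) ≠ 0 := by
    refine cnt G K a b c h m.fin (Sf K a b c) _ Sf_le inf_le_left hSV ⟨?_, ?_⟩
      (Sf_lf m hC h2) ?_
    · rintro x ⟨hx1, hx2, hx3⟩
      have hx2' : t⁻¹ * x * t ∈ Sf K a b c := mem_cjg.1 hx2
      have hx3' : t⁻¹⁻¹ * x * t⁻¹ ∈ Sf K a b c := mem_cjg.1 hx3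
      have c1 : Commute t a := hta
      refine ⟨hSV.1 x hx1, mem_cjg.2 ?_, mem_cjg.2 ?_⟩
      · have e : t⁻¹ * (a * x * a) * t = a * (t⁻¹ * x * t) * a := by
          calc t⁻¹ * (a * x * a) * t = (t⁻¹ * a) * x * (a * t) := by group
            _ = (a * t⁻¹) * x * (t * a) := by rw [c1.inv_left.eq, hta]
            _ = _ := by group
        rw [e]
        exact hSV.1 _ hx2'
      · have e : t⁻¹⁻¹ * (a * x * a) * t⁻¹ = a * (t⁻¹⁻¹ * x * t⁻¹) * a := by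
          calc t⁻¹⁻¹ * (a * x * a) * t⁻¹ = (t * a) * x * (a * t⁻¹) := by group
            _ = (a * t) * x * (t⁻¹ * a) := by rw [c1.inv_left.eq, hta]
            _ = _ := by group
        rw [e]
        exact hSV.1 _ hx3'
    · rintro x ⟨hx1, hx2, hx3⟩
      have hx2' : t⁻¹ * x * t ∈ Sf K a b c := mem_cjg.1 hx2
      have hx3' : t⁻¹⁻¹ * x * t⁻¹ ∈ Sf K a b c := mem_cjg.1 hx3
      have ebb : b * b = 1 := h.bb
      refine ⟨hSV.2 x hx1, mem_cjg.2 ?_, mem_cjg.2 ?_⟩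
      · have e : t⁻¹ * (b * x * b) * t = b * (t⁻¹⁻¹ * x * t⁻¹) * b := by
          calc t⁻¹ * (b * x * b) * t = 1 * t⁻¹ * (b * x * b) * t * 1 := by group
            _ = (b * b) * t⁻¹ * (b * x * b) * t * (b * b) := by rw [ebb]
            _ = b * (b * t⁻¹ * b) * x * (b * t * b) * b := by group
            _ = b * t * x * t⁻¹ * b := by rw [htb, htb']
            _ = _ := by group
        rw [e]
        exact hSV.2 _ hx3'
      · have e : t⁻¹⁻¹ * (b * x * b) * t⁻¹ = b * (t⁻¹ * x * t) * b := by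
          calc t⁻¹⁻¹ * (b * x * b) * t⁻¹ = 1 * t * (b * x * b) * t⁻¹ * 1 := by group
            _ = (b * b) * t * (b * x * b) * t⁻¹ * (b * b) := by rw [ebb]
            _ = b * (b * t * b) * x * (b * t⁻¹ * b) * b := by group
            _ = b * t⁻¹ * x * t * b := by rw [htb, htb']
            _ = _ := by group
        rw [e]
        exact hSV.2 _ hx2'
    · have main : ∀ v, (cjg t (Sf K a b c)).relIndex (Sf K a b c ⊓ Cz K v) ≠ 0 →
          (cjg t⁻¹ (Sf K a b c)).relIndex (Sf K a b c ⊓ Cz K v) ≠ 0 →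
          (Sf K a b c ⊓ (cjg t (Sf K a b c) ⊓ cjg t⁻¹ (Sf K a b c))).relIndex
            (Sf K a b c ⊓ Subgroup.centralizer {v}) ≠ 0 := by
        intro v h3 h4
        have e : Sf K a b c ⊓ Subgroup.centralizer {v} = Sf K a b c ⊓ Cz K v := by
          ext x
          rw [Subgroup.mem_inf, Subgroup.mem_inf, Subgroup.mem_centralizer_singleton_iff, mem_Cz]
          exact ⟨fun hx => ⟨hx.1, Sf_le hx.1, hx.2⟩, fun hx => ⟨hx.1, hx.2.2⟩⟩
        rw [e]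
        refine Fct.rel_le (inf_ind h3 h4) ?_
        exact fun g hg hg' => ⟨hg.1, hg'⟩
      rintro v (rfl | rfl | rfl)
      · exact main _ (sfi_a m ht0 ht) (sfi_a m ht0 ht')
      · exact main _ (sfi_b m ht0 h2 h6 ht) (sfi_b m ht0 h2 h6 ht')
      · exact main _ (sfi_c m ht0 h2 h6 ht) (sfi_c m ht0 h2 h6 ht')
  exact ind_mono key (inf_le_right.trans inf_le_left)

/-- The commensurator of `S`. -/
def sfiC (S : Subgroup G) : Subgroup G where
  carrier := {k | (cjg k S).relIndex S ≠ 0 ∧ (cjg k⁻¹ S).relIndex S ≠ 0}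
  one_mem' := by
    show (cjg 1 S).relIndex S ≠ 0 ∧ (cjg 1⁻¹ S).relIndex S ≠ 0
    rw [inv_one, cjg_one, Subgroup.relIndex_self]
    exact ⟨one_ne_zero, one_ne_zero⟩
  mul_mem' := by
    rintro k l ⟨hk1, hk2⟩ ⟨hl1, hl2⟩
    refine ⟨?_, ?_⟩
    · rw [← cjg_mul]
      exact Subgroup.relIndex_ne_zero_trans (rel_cjg hl1 k) hk1
    · rw [mul_inv_rev, ← cjg_mul]
      exact Subgroup.relIndex_ne_zero_trans (rel_cjg hk2 l⁻¹) hl2
  inv_mem' := by
    rintro k ⟨hk1, hk2⟩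
    refine ⟨hk2, ?_⟩
    rwa [inv_inv]

theorem sfi_tp (m : MinC K a b c) (ht0 : AT K a b c) (hC : CkS.{u}) (h2 : NneS.{u})
    (h6 : Y2S.{u}) : TP K a b ≤ sfiC (Sf K a b c) := fun _ ht =>
  ⟨sfi_t m ht0 hC h2 h6 ht, sfi_t m ht0 hC h2 h6 ((TP K a b).inv_mem ht)⟩

theorem sfi_K (m : MinC K a b c) (ht0 : AT K a b c) (hC : CkS.{u}) (h2 : NneS.{u})
    (h6 : Y2S.{u}) : K ≤ sfiC (Sf K a b c) := by
  have h := m.fr
  have i1 : TP K a b ≤ sfiC (Sf K a b c) := sfi_tp m ht0 hC h2 h6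
  have i2 : TP K b c ≤ sfiC (Sf K a b c) := by
    have := sfi_tp (minC_rot m) ht0.rot hC h2 h6
    rwa [Sf_rot h] at this
  have i3 : TP K c a ≤ sfiC (Sf K a b c) := by
    have := sfi_tp (minC_rot2 m) (at_rot2 ht0) hC h2 h6
    rwa [Sf_rot h.rot, Sf_rot h] at this
  have v1 : VInv a b (TP K a b) := tp_inv h
  have v2 : VInv a b (TP K b c) := ((tp_inv h.rot).rot h.rot).rot h.rot.rot
  have v3 : VInv a b (TP K c a) := (tp_inv h.rot.rot).rot h.rot.rot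
  have l1 : TP K a b ≤ K := inf_le_left.trans (ta_leK h)
  have l2 : TP K b c ≤ K := inf_le_left.trans (ta_leK h.rot)
  have l3 : TP K c a ≤ K := inf_le_left.trans (ta_leK h.rot.rot)
  have hF2 : (Fx K b c : Set G).Finite := (minC_rot m).fin
  have hF3 : (Fx K c a : Set G).Finite := (minC_rot2 m).fin
  have htop : TP K a b ⊔ (TP K b c ⊔ TP K c a) = K := by
    refine gen_top m ht0 (sup_le l1 (sup_le l2 l3)) (sup_inv h v1 (sup_inv h v2 v3)) ?_ ?_ ?_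
    · exact ind_mono (tp_ind h m.fin ht0.ta) le_sup_left
    · exact ind_mono (tp_ind h.rot hF2 ht0.rot.ta) (le_sup_left.trans le_sup_right)
    · exact ind_mono (tp_ind h.rot.rot hF3 (at_rot2 ht0).ta) (le_sup_right.trans le_sup_right)
  exact htop.ge.trans (sup_le i1 (sup_le i2 i3))

end

/-- Row SFI. -/
theorem sfi (hC : CkS.{u}) (hM : CmsS.{u}) (h2 : NneS.{u}) (h6 : Y2S.{u}) : SfiS.{u} := by
  intro G _ K a b c m ht0
  have e : {x | x ∈ K ∧ ∀ f ∈ Fx K a b,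
      fi (Cz K a) f ∨ fi (Cz K b) f ∨ fi (Cz K c) f → f * x = x * f} =
      (Sf K a b c : Set G) := by
    ext x
    exact mem_Sf.symm
  rw [e]
  by_contra hinf
  have hinf' : Infinite (Sf K a b c) := Set.infinite_coe_iff.2 hinf
  obtain ⟨f, hf, hf1, -, hfc⟩ := h2 G K a b c m
  refine hf1 (hM G K a b c m (Sf K a b c) Sf_le (Sf_inv m.fr) hinf'
    (fun k hk => (sfi_K m ht0 hC h2 h6 hk).1) f (mem_Fx.1 hf).1 ?_)
  have h3 : Sf K a b c ≤ Subgroup.centralizer {f} := by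
    intro x hx
    rw [Subgroup.mem_centralizer_singleton_iff]
    exact ((mem_Sf.1 hx).2 f hf (Or.inr (Or.inr hfc))).symm
  show (Subgroup.centralizer {f}).relIndex (Sf K a b c) ≠ 0
  rw [Subgroup.relIndex_eq_one.2 h3]
  exact one_ne_zero

end Pool.Agent.FourGp.FF.Fp
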