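import Pool.Agent.Lib.MP_fb3619_al.FP.Base

/-!
# MP_fb3619_al, board FPF, row Y2 (paper 6): Lemma Y inside `C_K(E)`, `1 ≠ E ≤ F_a`
-/

set_option autoImplicit false

universe u

namespace Pool.Agent.FourGp.FF.Fp

open Pool.Agent.FourGp.H47 (Odd' inv_of_sq conj_inv_pow mul_inv_self odd_conj comm_of_inv
  mul_inv_self' comm_pow comm_inv conj_comm comm_conj)
open Pool.Agent.FourGp.H99 (LF)
open Pool.Agent.FourGp.FF.Abo
open Pool.Agent.FourGp.FF.Pq (TA mem_TA)
open Pool.Agent.FourGp.FF.Bs (MinC Min0 HerS CkS CmsS)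
open Pool.Agent.FourGp.FF.Fi (cjg Tm AT Fam)

namespace Yt

variable {G : Type u} [Group G] {K : Subgroup G} {a b c : G}

/-- `T_b` is invariant under the four-group. -/
theorem tb_inv (h : Fr K a b c) : VInv a b (TA K b a) := (ta_inv h.swap).swap

/-- `T_c` is invariant under the four-group. -/
theorem tc_inv (h : Fr K a b c) : VInv a b (TA K c a) :=
  (ta_inv h.rot.rot).rot h.rot.rot

theorem inf_vinv {X Y : Subgroup G} (hX : VInv a b X) (hY : VInv a b Y) : VInv a b (X ⊓ Y) :=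
  ⟨fun u hu => ⟨hX.1 u hu.1, hY.1 u hu.2⟩, fun u hu => ⟨hX.2 u hu.1, hY.2 u hu.2⟩⟩

/-- The centralizer of a set of elements commuting with `a` and `b` is invariant. -/
theorem cz_vinv (h : Fr K a b c) {X : Set G} (hX : ∀ x ∈ X, x ∈ Fx K a b) :
    VInv a b (Subgroup.centralizer X) := by
  have key : ∀ z : G, (∀ x ∈ X, x * z = z * x) →
      ∀ u ∈ Subgroup.centralizer X, z * u * z ∈ Subgroup.centralizer X := by
    intro z hzX u hu
    rw [Subgroup.mem_centralizer_iff] at hu ⊢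
    intro x hx
    have c1 : Commute x z := hzX x hx
    have c2 : Commute x u := hu x hx
    exact (c1.mul_right c2).mul_right c1
  exact ⟨key a fun x hx => (mem_Fx.1 (hX x hx)).2.1, key b fun x hx => (mem_Fx.1 (hX x hx)).2.2⟩

/-- An element of `F` commuting with `E` normalises `T ⊓ C(E)`. -/
theorem conj_cent {T E : Subgroup G} {f : G} (hT : ∀ t ∈ T, f⁻¹ * t * f ∈ T)
    (hE : ∀ e ∈ E, e * f = f * e) : ∀ t ∈ T ⊓ Subgroup.centralizer (E : Set G),
      f⁻¹ * t * f ∈ T ⊓ Subgroup.centralizer (E : Set G) := by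
  rintro t ⟨h1, h2⟩
  refine ⟨hT t h1, Subgroup.mem_centralizer_iff.2 fun e he => ?_⟩
  have c1 : Commute e f := hE e he
  have c2 : Commute e t := Subgroup.mem_centralizer_iff.1 h2 e he
  exact (c1.inv_right.mul_right c2).mul_right c1

/-- The group `W` of the proof. -/
def W (K : Subgroup G) (a b c : G) (E : Subgroup G) : Subgroup G :=
  TP K a b ⊔ TA K b a ⊓ Subgroup.centralizer (E : Set G) ⊔
    TA K c a ⊓ Subgroup.centralizer (E : Set G)

theorem tp_le : TP K a b ≤ TA K a b := fun _ ht => (mem_TP.1 ht).1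

theorem w_leK (h : Fr K a b c) (E : Subgroup G) : W K a b c E ≤ K :=
  sup_le (sup_le (tp_le.trans (ta_leK h)) (inf_le_left.trans (ta_leK h.swap)))
    (inf_le_left.trans (ta_leK h.rot.rot))

theorem w_cent {E : Subgroup G} (hE : E ≤ Fx K a b)
    (hEf : ∀ e ∈ E, fi (Cz K a) e) : W K a b c E ≤ Subgroup.centralizer (E : Set G) := by
  refine sup_le (sup_le ?_ inf_le_right) inf_le_right
  intro t ht
  exact Subgroup.mem_centralizer_iff.2 fun e he => (mem_TP.1 ht).2 e (hE he) (hEf e he)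

theorem w_vinv (h : Fr K a b c) {E : Subgroup G} (hE : E ≤ Fx K a b) :
    VInv a b (W K a b c E) := by
  have hc : VInv a b (Subgroup.centralizer (E : Set G)) := cz_vinv h fun x hx => hE hx
  exact sup_inv h (sup_inv h (tp_inv h) (inf_vinv (tb_inv h) hc)) (inf_vinv (tc_inv h) hc)

/-- The three parts of `W` are normalised by the elements of `F` which commute with `E`. -/
theorem parts (h : Fr K a b c) {E : Subgroup G} {f : G} (hf : f ∈ Fx K a b)
    (hfE : ∀ e ∈ E, e * f = f * e) :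
    (∀ s ∈ TP K a b, f⁻¹ * s * f ∈ TP K a b) ∧
    (∀ s ∈ TA K b a ⊓ Subgroup.centralizer (E : Set G),
      f⁻¹ * s * f ∈ TA K b a ⊓ Subgroup.centralizer (E : Set G)) ∧
    ∀ s ∈ TA K c a ⊓ Subgroup.centralizer (E : Set G),
      f⁻¹ * s * f ∈ TA K c a ⊓ Subgroup.centralizer (E : Set G) := by
  have hfb : f ∈ Fx K b a := by rw [Fr.fx_swap]; exact hf
  have hfc : f ∈ Fx K c a := by rw [fx_ca h]; exact hf
  exact ⟨fun s hs => tp_fx h hf hs, conj_cent (fun t ht => ta_fx h.swap hfb ht) hfE,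
    conj_cent (fun t ht => ta_fx h.rot.rot hfc ht) hfE⟩

theorem w_conj (h : Fr K a b c) {E : Subgroup G} {f : G} (hf : f ∈ Fx K a b)
    (hfE : ∀ e ∈ E, e * f = f * e) : ∀ w ∈ W K a b c E, f⁻¹ * w * f ∈ W K a b c E := by
  obtain ⟨h1, h2, h3⟩ := parts h hf hfE
  exact sup_conj (sup_conj h1 h2) h3

theorem w_ind (h : Fr K a b c) (hF : (Fx K a b : Set G).Finite) (t : Tm K a b c a)
    (E : Subgroup G) : (W K a b c E).relIndex (Cz K a) ≠ 0 :=
  ind_mono (tp_ind h hF t) (le_sup_left.trans le_sup_left)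

end Yt

open Yt in
theorem y2 (hY : YlS.{u}) (hFl : FlatS.{u}) (hC : CkS.{u}) (h3 : HdfS.{u}) (h5 : PffS.{u}) :
    Y2S.{u} := by
  intro G _ K a b c m t E hE hEf hE1
  have h := m.fr
  have hF := m.fin
  have hWK : W K a b c E ≤ K := w_leK h E
  have hWE : W K a b c E ≤ Subgroup.centralizer (E : Set G) := w_cent hE hEf
  have hWV : VInv a b (W K a b c E) := w_vinv h hE
  -- `W` is locally finite and meets `F` trivially
  have hWLF : LF (W K a b c E : Subgroup G) := by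
    obtain ⟨⟨e, he⟩, he1⟩ := Subgroup.ne_bot_iff_exists_ne_one.1 hE1
    have he2 : e ≠ 1 := fun e1 => he1 (Subtype.ext e1)
    refine LF_mono ?_ ((hC G K a b c m.toMin0).1 e (hE he) he2)
    intro w hw
    refine Subgroup.mem_inf.2 ⟨hWK hw, Subgroup.mem_centralizer_singleton_iff.2 ?_⟩
    exact (Subgroup.mem_centralizer_iff.1 (hWE hw) e he).symm
  have hWF : ∀ f ∈ W K a b c E, f ∈ Fx K a b → f = 1 :=
    hFl G K a b c h hF (TP K a b) (TA K b a ⊓ Subgroup.centralizer (E : Set G))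
      (TA K c a ⊓ Subgroup.centralizer (E : Set G)) tp_le inf_le_left inf_le_left hWLF
      fun f hf hfF => parts h hfF fun e he =>
        Subgroup.mem_centralizer_iff.1 (hWE hf) e he
  have hWa : (W K a b c E).relIndex (Cz K a) ≠ 0 := w_ind h hF t.ta E
  -- the two finite sets
  have hfb : {x | x ∈ W K a b c E ∧ x ∈ Cz K b ∧ fi (W K a b c E ⊓ Cz K a) x}.Finite :=
    (h3 G K a b c m t).2.subset fun x hx => ⟨hx.2.1, fi_up hWa hx.2.2⟩
  have hfc : {x | x ∈ W K a b c E ∧ x ∈ Cz K c ∧ fi (W K a b c E ⊓ Cz K a) x}.Finite :=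
    (h3 G K a c b (minC_swap' m) t.swap').2.subset fun x hx => ⟨hx.2.1, fi_up hWa hx.2.2⟩
  have hSb : TA K b a ⊓ Subgroup.centralizer (E : Set G) ≤ W K a b c E ⊓ Cz K b :=
    le_inf (le_sup_right.trans le_sup_left) (inf_le_left.trans (ta_le h.swap))
  -- Lemma Y
  have yc : ∀ f ∈ Fx K a b, fi (Cz K c) f → fi (W K a b c E ⊓ Cz K b) f ∧
      ∀ x ∈ W K a b c E, x ∈ Cz K a → fi (W K a b c E ⊓ Cz K b) (x⁻¹ * (f⁻¹ * x * f)) ∧
        fi (W K a b c E ⊓ Cz K c) (x⁻¹ * (f⁻¹ * x * f)) := by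
    intro f hf hfi
    have hfE : ∀ e ∈ E, e * f = f * e := fun e he =>
      (h5 G K a c b (minC_swap' m) t.swap').2 e (by rw [fx_ac h]; exact hE he) (hEf e he) f
        (by rw [fx_ac h]; exact hf) hfi
    exact hY G K a b c h (W K a b c E) hWK hWV hWLF hWF hfb hfc f hf (w_conj h hf hfE)
      (Fct.fi_mono hfi inf_le_right)
  have yb : ∀ f ∈ Fx K a b, fi (Cz K b) f →
      ∀ x ∈ W K a b c E, x ∈ Cz K a → fi (W K a b c E ⊓ Cz K b) (x⁻¹ * (f⁻¹ * x * f)) := by
    intro f hf hfi x hx hxa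
    have hfE : ∀ e ∈ E, e * f = f * e := fun e he =>
      (h5 G K a b c m t).2 e (hE he) (hEf e he) f hf hfi
    have hWF' : ∀ f ∈ W K a b c E, f ∈ Fx K a c → f = 1 := fun f hf hfF =>
      hWF f hf (by rw [← fx_ac h]; exact hfF)
    exact ((hY G K a c b h.swap' (W K a b c E) hWK (hWV.swap.rot h.swap) hWLF hWF' hfc hfb f
      (by rw [fx_ac h]; exact hf) (w_conj h hf hfE) (Fct.fi_mono hfi inf_le_right)).2 x hx hxa).2
  refine ⟨fun f hf hfi => Fct.fi_mono (yc f hf hfi).1 hSb, ?_⟩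
  intro s hs hsF f hf hfi
  have hsW : s ∈ W K a b c E := (le_sup_left.trans le_sup_left : TP K a b ≤ W K a b c E)
    (mem_TP.2 ⟨hs, hsF⟩)
  have hsa : s ∈ Cz K a := ta_le h hs
  rcases hfi with hfi | hfi
  · exact Fct.fi_mono (yb f hf hfi s hsW hsa) hSb
  · exact Fct.fi_mono ((yc f hf hfi).2 s hsW hsa).1 hSb

end Pool.Agent.FourGp.FF.Fp
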