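import Pool.Agent.Lib.MP_fb3619_al.FP.Trv
import Pool.Agent.Lib.MP_fb3619_al.FP.Nne
import Pool.Agent.Lib.MP_fb3619_al.FP.Hdf
import Pool.Agent.Lib.MP_fb3619_al.FP.P2
import Pool.Agent.Lib.MP_fb3619_al.FP.Pff
import Pool.Agent.Lib.MP_fb3619_al.FP.Y2
import Pool.Agent.Lib.MP_fb3619_al.FP.Sfi
import Pool.Agent.Lib.MP_fb3619_al.FP.Cfi
import Pool.Agent.Lib.MP_fb3619_al.FP.Chd
import Pool.Agent.Lib.MP_fb3619_al.FP.Hdz
import Pool.Agent.Lib.MP_fb3619_al.FP.Fpf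
import Pool.Agent.Lib.MP_fb3619_al.FP.Lmv
import Pool.Agent.Lib.MP_fb3619_al.FP.Isol
import Pool.Agent.Lib.MP_fb3619_al.FP.Pv1
import Pool.Agent.Lib.MP_fb3619_al.H71.Yl
import Pool.Agent.Lib.MP_fb3619_al.H28.FlatF
import Pool.Agent.Lib.MP_fb3619_al.BS.Main

/-!
# MP_fb3619_al, board FPF: assembly. All rows are discharged.
-/

set_option autoImplicit false

universe u

namespace Pool.Agent.FourGp.FF.Fp

open Pool.Agent.FourGp.FF.Bs (MinC Min0 HerS CkS CmsS)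

theorem p2' : P2S.{u} := p2 Pool.Agent.FourGp.H71.yls flat trv nne hdf

theorem pff' : PffS.{u} := pff Bs.ck' p2'

theorem y2' : Y2S.{u} := y2 Pool.Agent.FourGp.H71.yls flat Bs.ck' hdf pff'

theorem sfi' : SfiS.{u} := sfi Bs.ck' Bs.cms nne y2'

theorem cfi' : CfiS.{u} := cfi nne y2' sfi'

theorem chd' : ChdS.{u} := chd Bs.ck' cfi'

theorem hdz' : HdzS.{u} := hdz Bs.her trv nne p2' chd'

/-- THEOREM FPF. -/
theorem fpf' : FpfS.{u} := fpf pff' chd' hdz'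

/-- ISOLATION. -/
theorem isol' : IsolS.{u} := isol Pool.Agent.FourGp.H71.yls flat Bs.ck' nne hdf hdz' fpf' lmv

/-- No homologies in the tame case. -/
theorem pv1' : Pv1S.{u} := pv1 fpf' isol'

end Pool.Agent.FourGp.FF.Fp
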