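import Pool.Agent.Lib.MP_fb3619_al.FP.Iface

/-!
# MP_fb3619_al, board FPF, row TRV (paper 1)
-/

set_option autoImplicit false

universe u

namespace Pool.Agent.FourGp.FF.Fp

open Pool.Agent.FourGp.H47 (Odd' inv_of_sq)
open Pool.Agent.FourGp.H99 (LF)
open Pool.Agent.FourGp.FF.Bs (MinC)
open Pool.Agent.FourGp.FF.Fi (AT Fam thmFI)

theorem trv_com {G : Type u} [Group G] {s x u : G} (hs : s * s = 1)
    (hx : s * x * s = x ∨ s * x * s = x⁻¹) (h : u * x = x * u) :
    (s * u * s) * x = x * (s * u * s) := by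
  have h3 : (s * u * s) * (s * x * s) = (s * x * s) * (s * u * s) := by
    calc (s * u * s) * (s * x * s) = s * u * (s * s) * x * s := by group
      _ = s * (u * x) * s := by rw [hs]; group
      _ = s * (x * u) * s := by rw [h]
      _ = s * x * (s * s) * u * s := by rw [hs]; group
      _ = _ := by group
  rcases hx with e | e
  · rwa [e] at h3
  · rw [e] at h3
    have h4 : Commute (s * u * s) x⁻¹ := h3
    exact (Commute.inv_right_iff.1 h4).eq

theorem trv_zp {G : Type u} [Group G] {s x u : G} (hs : s * s = 1)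
    (hx : s * x * s = x ∨ s * x * s = x⁻¹) (h : u ∈ Subgroup.zpowers x) :
    s * u * s ∈ Subgroup.zpowers x := by
  obtain ⟨n, rfl⟩ := Subgroup.mem_zpowers_iff.1 h
  have e : s⁻¹ = s := inv_of_sq hs
  have e1 : s * x ^ n * s = (s * x * s) ^ n := by
    have h1 := (conj_zpow (i := n) (a := s) (b := x)).symm
    rwa [e] at h1
  rw [e1]
  rcases hx with e2 | e2
  · rw [e2]
    exact Subgroup.zpow_mem _ (Subgroup.mem_zpowers x) n
  · rw [e2]
    exact Subgroup.zpow_mem _ (Subgroup.inv_mem _ (Subgroup.mem_zpowers x)) n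

/-- TRV -/
theorem trv : TrvS.{u} := by
  intro G _ K a b c hM hT x hx ha hb fa fb fc
  have h := hM.fr
  have hn := h.nor
  have hKs : ∀ s : G, s * s = 1 → ∀ u ∈ K, s * u * s ∈ K := by
    intro s hs u hu
    have h1 := hn.conj_mem u hu s
    rwa [inv_of_sq hs] at h1
  have mU : ∀ u, u ∈ K ⊓ Subgroup.centralizer {x} ↔ u ∈ K ∧ u * x = x * u := by
    intro u
    rw [Subgroup.mem_inf, Subgroup.mem_centralizer_singleton_iff]
  have hinv : VInv a b (K ⊓ Subgroup.centralizer {x}) := by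
    refine ⟨fun u hu => ?_, fun u hu => ?_⟩
    · obtain ⟨h1, h2⟩ := (mU u).1 hu
      exact (mU _).2 ⟨hKs a h.aa u h1, trv_com h.aa ha h2⟩
    · obtain ⟨h1, h2⟩ := (mU u).1 hu
      exact (mU _).2 ⟨hKs b h.bb u h1, trv_com h.bb hb h2⟩
  have hidx : ∀ v, fi (Cz K v) x →
      (K ⊓ Subgroup.centralizer {x}).relIndex (Cz K v) ≠ 0 := by
    intro v hv
    refine Subgroup.relIndex_inf_ne_zero ?_ hv
    have h1 : K.relIndex (Cz K v) = 1 := Subgroup.relIndex_eq_one.2 inf_le_left
    rw [h1]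
    exact one_ne_zero
  have hfam : Fam K a b c (K ⊓ Subgroup.centralizer {x}) :=
    ⟨inf_le_left, hinv, hidx a fa, hidx b fb, hidx c fc⟩
  have hU := hM.ind _ inf_le_left hinv (thmFI h hT hM.fin hfam)
  have hcen : ∀ k ∈ K, k * x = x * k := by
    intro k hk
    rw [← hU] at hk
    exact ((mU k).1 hk).2
  have hle : Subgroup.zpowers x ≤ K := by
    rw [Subgroup.zpowers_le]
    exact hx
  have hfin : Finite (Subgroup.zpowers x) := by
    obtain ⟨n, hn⟩ := h.odd x hx
    have h1 : IsOfFinOrder x := isOfFinOrder_iff_pow_eq_one.2 ⟨2 * n + 1, by omega, hn⟩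
    exact (finite_zpowers.2 h1).to_subtype
  have hbot := hM.nolf (Subgroup.zpowers x) hle
    ⟨fun u hu => trv_zp h.aa ha hu, fun u hu => trv_zp h.bb hb hu⟩
    (fun k hk n hn => by
      obtain ⟨m, rfl⟩ := Subgroup.mem_zpowers_iff.1 hn
      have h1 : Commute k (x ^ m) := (show Commute k x from hcen k hk).zpow_right m
      have h2 : k⁻¹ * x ^ m * k = x ^ m := by
        rw [mul_assoc, ← h1.eq, ← mul_assoc, inv_mul_cancel, one_mul]
      rw [h2]
      exact hn)
    (fun S _ => inferInstance)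
  exact Subgroup.zpowers_eq_bot.1 hbot

end Pool.Agent.FourGp.FF.Fp
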